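import Pool.Agent.Lib.MP_0e6cae_nt.SW.Base

/-!
Restriction to a subgroup preserves finitely generated, projective and free modules.
-/

open CategoryTheory

namespace Pool.Agent.Lib.MP_0e6cae_nt.SW

variable {C G : Type} [Group C] [Group G]

theorem ResF.finite [Finite G] (f : C →* G) (M : Type) [AddCommGroup M]
    [Module (MonoidAlgebra ℤ G) M] [Module.Finite (MonoidAlgebra ℤ G) M] :
    Module.Finite (MonoidAlgebra ℤ C) (ResF f M) := by
  have := Fintype.ofFinite G
  have h1 : Module.Finite ℤ M := Module.Finite.trans (MonoidAlgebra ℤ G) M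
  have h2 : Module.Finite ℤ (ResF f M) := h1
  exact Module.Finite.of_restrictScalars_finite ℤ _ _

private theorem prj_coef (f : C →* G) (S : Set G) [DecidableEq S]
    (hS : Function.Injective fun x : C × S => f x.1 * x.2.1)
    (x : MonoidAlgebra ℤ C) (s t : S) (c : C) :
    (MonoidAlgebra.mapDomainRingHom ℤ f x * MonoidAlgebra.single (t : G) (1 : ℤ)).coeff
      (f c * s) = if s = t then x.coeff c else 0 := by
  classical
  induction x using MonoidAlgebra.induction_linear with
  | zero => simp
  | add a b ha hb =>
    rw [map_add, add_mul, MonoidAlgebra.coeff_add, Finsupp.add_apply, ha, hb,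
      MonoidAlgebra.coeff_add, Finsupp.add_apply]
    split_ifs
    · rfl
    · exact add_zero 0
  | single d n =>
    have h1 : MonoidAlgebra.mapDomainRingHom ℤ f (MonoidAlgebra.single d n) *
        MonoidAlgebra.single (t : G) (1 : ℤ) = MonoidAlgebra.single (f d * t) n := by
      have h2 : MonoidAlgebra.mapDomainRingHom ℤ f (MonoidAlgebra.single d n) =
          MonoidAlgebra.single (f d) n := by simp
      rw [h2, MonoidAlgebra.single_mul_single, mul_one]
    rw [h1, MonoidAlgebra.coeff_single, MonoidAlgebra.coeff_single, Finsupp.single_apply,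
      Finsupp.single_apply]
    by_cases hst : s = t
    · subst hst
      rw [if_pos rfl]
      by_cases hdc : d = c
      · rw [if_pos hdc, if_pos (by rw [hdc])]
      · rw [if_neg hdc, if_neg]
        intro h
        have h3 := @hS (d, s) (c, s) h
        exact hdc (congrArg Prod.fst h3)
    · rw [if_neg hst, if_neg]
      intro h
      have h3 := @hS (d, t) (c, s) h
      exact hst (congrArg Prod.snd h3).symm

/-- the map from the free module on the representatives -/
private noncomputable def prjPhi (f : C →* G) (S : Set G) [Fintype S] (r : ℕ) :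
    (Fin r × S → MonoidAlgebra ℤ C) →ₗ[MonoidAlgebra ℤ C]
      ResF f (Fin r → MonoidAlgebra ℤ G) where
  toFun a := ResF.of f _ fun i => ∑ s : S,
    MonoidAlgebra.mapDomainRingHom ℤ f (a (i, s)) * MonoidAlgebra.single (s : G) (1 : ℤ)
  map_add' a b := by
    rw [← map_add]
    congr 1
    funext i
    rw [Pi.add_apply, ← Finset.sum_add_distrib]
    refine Finset.sum_congr rfl fun s _ => ?_
    rw [Pi.add_apply, map_add, add_mul]
  map_smul' x a := by
    rw [RingHom.id_apply, ResF.smul_of]
    congr 1
    funext i
    rw [Pi.smul_apply, smul_eq_mul, Finset.mul_sum]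
    refine Finset.sum_congr rfl fun s _ => ?_
    rw [Pi.smul_apply, smul_eq_mul, map_mul, mul_assoc]

private theorem prjPhi_coef (f : C →* G) (S : Set G) [Fintype S]
    (hS : Function.Injective fun x : C × S => f x.1 * x.2.1) (r : ℕ)
    (a : Fin r × S → MonoidAlgebra ℤ C) (i : Fin r) (c : C) (s : S) :
    ((ResF.of f _).symm (prjPhi f S r a) i).coeff (f c * s) = (a (i, s)).coeff c := by
  classical
  show (∑ t : S, MonoidAlgebra.mapDomainRingHom ℤ f (a (i, t)) *
    MonoidAlgebra.single (t : G) (1 : ℤ)).coeff (f c * s) = _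
  rw [MonoidAlgebra.coeff_sum, Finsupp.finset_sum_apply]
  simp_rw [prj_coef f S hS]
  rw [Finset.sum_ite_eq]
  simp

/-- `ℤ[G]^r` is free over `ℤ[C]`. -/
theorem ResF.free [Finite G] (f : C →* G) (hf : Function.Injective f) (r : ℕ) :
    ∃ t : ℕ, t * Nat.card C = r * Nat.card G ∧
      Nonempty (ResF f (Fin r → MonoidAlgebra ℤ G) ≃ₗ[MonoidAlgebra ℤ C]
        (Fin t → MonoidAlgebra ℤ C)) := by
  classical
  obtain ⟨S, hS, -⟩ := Subgroup.exists_isComplement_right f.range 1
  have hC : Finite C := Finite.of_injective f hf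
  have := Fintype.ofFinite C
  have := Fintype.ofFinite S
  have hcardC : Nat.card f.range = Nat.card C :=
    Nat.card_congr (Equiv.ofInjective f hf).symm
  have hbij : Function.Bijective fun x : C × S => f x.1 * x.2.1 := by
    have h1 : Function.Bijective (fun x : C × S => (Prod.mk (Subtype.mk (f x.1)
        (MonoidHom.mem_range.2 ⟨x.1, rfl⟩)) x.2 : Prod (↑(↑(MonoidHom.range f) : Set G)) S)) := by
      constructor
      · rintro ⟨c, s⟩ ⟨c', s'⟩ h
        have h2 := congrArg Prod.fst h
        have h3 := congrArg Prod.snd h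
        have h4 : f c = f c' := congrArg Subtype.val h2
        exact Prod.ext (hf h4) h3
      · rintro ⟨⟨_, ⟨c, rfl⟩⟩, s⟩
        exact ⟨(c, s), rfl⟩
    exact hS.comp h1
  have hphi : Function.Bijective (prjPhi f S r) := by
    constructor
    · rw [injective_iff_map_eq_zero]
      intro a ha
      funext ⟨i, s⟩
      ext c
      rw [← prjPhi_coef f S hbij.1, ha]
      rfl
    · intro y
      let a : Fin r × S → MonoidAlgebra ℤ C := fun p => MonoidAlgebra.ofCoeff
        (Finsupp.equivFunOnFinite.symm fun c => ((ResF.of f _).symm y p.1).coeff (f c * p.2))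
      refine ⟨a, ?_⟩
      apply (ResF.of f _).symm.injective
      funext i
      ext g
      obtain ⟨⟨c, s⟩, rfl⟩ := hbij.2 g
      have h1 := prjPhi_coef f S hbij.1 r a i c s
      exact h1
  refine ⟨Fintype.card (Fin r × S), ?_, ⟨(LinearEquiv.ofBijective _ hphi).symm.trans
    (LinearEquiv.funCongrLeft _ _ (Fintype.equivFin (Fin r × S)).symm)⟩⟩
  have h2 := hS.card_mul_card
  have h3 : Nat.card (f.range : Set G) = Nat.card C := hcardC
  rw [← h2, h3, Fintype.card_prod, Fintype.card_fin, Nat.card_eq_fintype_card (α := S)]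
  ring

private theorem prj_free_projective [Finite G] (f : C →* G) (hf : Function.Injective f) (r : ℕ) :
    Module.Projective (MonoidAlgebra ℤ C) (ResF f (Fin r → MonoidAlgebra ℤ G)) := by
  obtain ⟨t, -, ⟨e⟩⟩ := ResF.free f hf r
  exact Module.Projective.of_equiv e.symm

theorem ResF.projective [Finite G] (f : C →* G) (hf : Function.Injective f) (P : Type)
    [AddCommGroup P] [Module (MonoidAlgebra ℤ G) P] [Module.Finite (MonoidAlgebra ℤ G) P]
    [Module.Projective (MonoidAlgebra ℤ G) P] :
    Module.Projective (MonoidAlgebra ℤ C) (ResF f P) := by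
  obtain ⟨k, π, hπ⟩ := Module.Finite.exists_fin' (MonoidAlgebra ℤ G) P
  obtain ⟨σ, hσ⟩ := Module.projective_lifting_property π
    (LinearMap.id : P →ₗ[MonoidAlgebra ℤ G] P) hπ
  have h1 := prj_free_projective f hf k
  refine Module.Projective.of_split (ResF.map f σ) (ResF.map f π) ?_
  apply LinearMap.ext
  intro y
  exact LinearMap.congr_fun hσ ((ResF.of f P).symm y)

/-- Restriction preserves finite projective dimension (finitely generated modules). -/
theorem ResF.fpd [Finite G] (f : C →* G) (hf : Function.Injective f) (A : Type)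
    [AddCommGroup A] [Module (MonoidAlgebra ℤ G) A] [Module.Finite (MonoidAlgebra ℤ G) A]
    (hA : ∃ n : ℕ, HasProjectiveDimensionLE (ModuleCat.of (MonoidAlgebra ℤ G) A) n) :
    ∃ n : ℕ, HasProjectiveDimensionLE (ModuleCat.of (MonoidAlgebra ℤ C) (ResF f A)) n := by
  obtain ⟨n, h⟩ := hA
  induction n generalizing A with
  | zero =>
    refine ⟨0, ?_⟩
    have h1 : Module.Projective (MonoidAlgebra ℤ G) A := by
      rw [IsProjective.iff_projective]
      exact (projective_iff_hasProjectiveDimensionLE_zero _).2 h
    have h2 := ResF.projective f hf A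
    exact (projective_iff_hasProjectiveDimensionLE_zero _).1
      ((IsProjective.iff_projective _).1 h2)
  | succ n ih =>
    have := Fintype.ofFinite G
    obtain ⟨k, g, hg⟩ := Module.Finite.exists_fin' (MonoidAlgebra ℤ G) A
    have hfin : Module.Finite ℤ (Fin k → MonoidAlgebra ℤ G) :=
      Module.Finite.trans (MonoidAlgebra ℤ G) _
    have hker : Module.Finite (MonoidAlgebra ℤ G) (LinearMap.ker g) := by
      have : Module.Finite ℤ (LinearMap.ker g) := by
        have h1 : Module.Finite ℤ (LinearMap.ker g.toAddMonoidHom.toIntLinearMap) :=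
          inferInstance
        exact h1
      exact Module.Finite.of_restrictScalars_finite ℤ _ _
    have hS := LinearMap.shortExact_shortComplexKer hg
    have hP : Module.Projective (MonoidAlgebra ℤ G) (Fin k → MonoidAlgebra ℤ G) := inferInstance
    have hP2 : Projective (ModuleCat.of (MonoidAlgebra ℤ G) (Fin k → MonoidAlgebra ℤ G)) :=
      (IsProjective.iff_projective _).1 hP
    have h1 : HasProjectiveDimensionLE
        (ModuleCat.of (MonoidAlgebra ℤ G) (LinearMap.ker g)) n :=
      hS.hasProjectiveDimensionLT_X₁ (n + 1)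
        (hasProjectiveDimensionLT_of_ge _ 1 (n + 1) (by omega)) h
    obtain ⟨m, hm⟩ := ih (LinearMap.ker g) h1
    have hg' : Function.Surjective (ResF.map f g) := hg
    have hS' := LinearMap.shortExact_shortComplexKer hg'
    let e : ResF f (LinearMap.ker g) ≃ₗ[MonoidAlgebra ℤ C] LinearMap.ker (ResF.map f g) :=
      { toFun := fun x => ⟨ResF.of f _ ((ResF.of f (LinearMap.ker g)).symm x).1,
          ((ResF.of f (LinearMap.ker g)).symm x).2⟩
        invFun := fun x => ResF.of f (LinearMap.ker g) ⟨(ResF.of f _).symm x.1, x.2⟩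
        left_inv := fun _ => rfl
        right_inv := fun _ => rfl
        map_add' := fun _ _ => rfl
        map_smul' := fun _ _ => rfl }
    have h2 : HasProjectiveDimensionLT
        (ModuleCat.of (MonoidAlgebra ℤ C) (LinearMap.ker (ResF.map f g))) (m + 1) := by
      have hm' : HasProjectiveDimensionLT
        (ModuleCat.of (MonoidAlgebra ℤ C) (ResF f (LinearMap.ker g))) (m + 1) := hm
      exact hasProjectiveDimensionLT_of_iso e.toModuleIso (m + 1)
    have h3 := prj_free_projective f hf k
    have h4 : Projective (ModuleCat.of (MonoidAlgebra ℤ C)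
        (ResF f (Fin k → MonoidAlgebra ℤ G))) := (IsProjective.iff_projective _).1 h3
    exact ⟨m + 1, hS'.hasProjectiveDimensionLT_X₃ (m + 1) h2
      (hasProjectiveDimensionLT_of_ge _ 1 (m + 1 + 1) (by omega))⟩

end Pool.Agent.Lib.MP_0e6cae_nt.SW
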