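import Mathlib

/-!
A criterion for a finite module to be generated by `r` elements.
-/

namespace Pool.Agent.Lib.MP_0e6cae_nt.SW

theorem gen_finite_hom {A : Type} [Ring A] (V S : Type) [AddCommGroup V] [Module A V]
    [AddCommGroup S] [Module A S] [Finite V] [Finite S] : Finite (V →ₗ[A] S) :=
  Finite.of_injective (fun f : V →ₗ[A] S => (f : V → S)) DFunLike.coe_injective

theorem gen_card_free {A : Type} [Ring A] (S : Type) [AddCommGroup S] [Module A S] (r : ℕ) :
    Nat.card ((Fin r → A) →ₗ[A] S) = Nat.card S ^ r := by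
  have e : (Fin r → S) ≃ ((Fin r → A) →ₗ[A] S) :=
    ((Pi.basisFun A (Fin r)).constr ℕ (M' := S)).toEquiv
  rw [← Nat.card_congr e, Nat.card_fun, Nat.card_fin]

theorem gen_finite_free {A : Type} [Ring A] (S : Type) [AddCommGroup S] [Module A S] [Finite S]
    (r : ℕ) : Finite ((Fin r → A) →ₗ[A] S) := by
  have e : (Fin r → S) ≃ ((Fin r → A) →ₗ[A] S) :=
    ((Pi.basisFun A (Fin r)).constr ℕ (M' := S)).toEquiv
  exact Finite.of_equiv _ e

/-- The case of a semisimple module. (Choose `φ : A^r → V` with image `W` of maximal cardinality;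
if `W ≠ V` there is a simple `S ⊆ V` with `W ∩ S = 0`; for every `ψ : A^r → S` the image of
`φ + ψ` is contained in `W ⊕ S` and projects onto `W`; by maximality `ψ` vanishes on `ker φ`
(otherwise `(φ + ψ)(ker φ) = S`), so `|S|^r = |Hom(A^r, S)| ≤ |Hom(W, S)|` and
`|Hom(V, S)| ≥ |Hom(W ⊕ S, S)| = |Hom(W, S)| |End S| ≥ 2 |S|^r`.) -/
theorem exists_gen_semisimple {A : Type} [Ring A] (V : Type) [AddCommGroup V] [Module A V]
    [Finite V] [IsSemisimpleModule A V] (r : ℕ)
    (h : ∀ (S : Submodule A V), IsSimpleModule A S → Nat.card (V →ₗ[A] S) ≤ Nat.card S ^ r) :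
    ∃ φ : (Fin r → A) →ₗ[A] V, Function.Surjective φ := by
  classical
  have hN : IsNoetherian A V := inferInstance
  obtain ⟨W, ⟨φ, hφ⟩, hmax⟩ := set_has_maximal_iff_noetherian.2 hN
    {W : Submodule A V | ∃ φ : (Fin r → A) →ₗ[A] V, LinearMap.range φ = W} ⟨_, 0, rfl⟩
  refine ⟨φ, ?_⟩
  rw [← LinearMap.range_eq_top, hφ]
  by_contra hW
  obtain ⟨W', hc⟩ := exists_isCompl W
  have hW' : W' ≠ ⊥ := by
    intro h0
    rw [h0] at hc
    exact hW (by simpa using hc.sup_eq_top)
  obtain ⟨S, hS, hSW⟩ := (IsAtomic.eq_bot_or_exists_atom_le W').resolve_left hW'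
  have hSs : IsSimpleModule A S := isSimpleModule_iff_isAtom.2 hS
  have hSne : S ≠ ⊥ := hS.1
  -- every homomorphism vanishes on the kernel
  have hker : ∀ ψ : (Fin r → A) →ₗ[A] S, LinearMap.ker φ ≤ LinearMap.ker ψ := by
    intro ψ x hx
    rw [LinearMap.mem_ker]
    by_contra hne
    have hx0 : φ x = 0 := hx
    set ψ' : (Fin r → A) →ₗ[A] V := S.subtype ∘ₗ ψ with hψ'
    -- the image of the kernel is S
    have hmap : (LinearMap.ker φ).map ψ' = S := by
      have h1 : (LinearMap.ker φ).map ψ' ≤ S := by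
        rintro _ ⟨y, -, rfl⟩
        exact (ψ y).2
      rcases (hS.le_iff.1 h1) with h2 | h2
      · exfalso
        apply hne
        have h3 : ψ' x ∈ (LinearMap.ker φ).map ψ' := Submodule.mem_map_of_mem hx
        rw [h2, Submodule.mem_bot] at h3
        exact Subtype.ext h3
      · exact h2
    have hS1 : S ≤ LinearMap.range (φ + ψ') := by
      rw [← hmap]
      rintro _ ⟨y, hy, rfl⟩
      refine ⟨y, ?_⟩
      have hy0 : φ y = 0 := hy
      rw [LinearMap.add_apply, hy0, zero_add]
    have hW1 : W ≤ LinearMap.range (φ + ψ') := by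
      rw [← hφ]
      rintro _ ⟨y, rfl⟩
      have h1 : (φ + ψ') y ∈ LinearMap.range (φ + ψ') := ⟨y, rfl⟩
      have h2 : ψ' y ∈ LinearMap.range (φ + ψ') := hS1 (ψ y).2
      have h3 := Submodule.sub_mem _ h1 h2
      rwa [LinearMap.add_apply, add_sub_cancel_right] at h3
    refine hmax (LinearMap.range (φ + ψ')) ⟨_, rfl⟩ (lt_of_le_of_ne hW1 ?_)
    intro heq
    apply hSne
    rw [← heq] at hS1
    have h1 : S ≤ W ⊓ W' := le_inf hS1 hSW
    rw [hc.inf_eq_bot] at h1
    exact le_bot_iff.1 h1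
  -- the two projections
  obtain ⟨S', hcS⟩ := exists_isCompl S
  let πS : V →ₗ[A] S := S.projectionOnto S' hcS
  let e := φ.quotKerEquivRange
  let πW : V →ₗ[A] W := W.projectionOnto W' hc
  let ι : W →ₗ[A] LinearMap.range φ := Submodule.inclusion hφ.ge
  let G : ((Fin r → A) →ₗ[A] S) → (V →ₗ[A] S) := fun ψ =>
    ((LinearMap.ker φ).liftQ ψ (hker ψ)) ∘ₗ e.symm.toLinearMap ∘ₗ ι ∘ₗ πW
  have hG1 : ∀ ψ x, G ψ (φ x) = ψ x := by
    intro ψ x
    have hxW : φ x ∈ W := hφ ▸ ⟨x, rfl⟩
    have h1 : πW (φ x) = ⟨φ x, hxW⟩ := Submodule.projectionOnto_apply_of_mem_left hc hxW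
    show (LinearMap.ker φ).liftQ ψ (hker ψ) (e.symm (ι (πW (φ x)))) = ψ x
    rw [h1]
    have h2 : e.symm (ι ⟨φ x, hxW⟩) = (LinearMap.ker φ).mkQ x := by
      rw [LinearEquiv.symm_apply_eq]
      apply Subtype.ext
      rfl
    rw [h2, Submodule.mkQ_apply, Submodule.liftQ_apply]
  have hG2 : ∀ ψ, ∀ x ∈ W', G ψ x = 0 := by
    intro ψ x hx
    have h1 : πW x = 0 := Submodule.projectionOnto_apply_of_mem_right hc hx
    show (LinearMap.ker φ).liftQ ψ (hker ψ) (e.symm (ι (πW x))) = 0
    rw [h1, map_zero, map_zero, map_zero]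
  obtain ⟨s0, hs0, hs1⟩ := (Submodule.ne_bot_iff S).1 hSne
  have hπ : πS s0 ≠ 0 := by
    have h1 : πS s0 = ⟨s0, hs0⟩ := Submodule.projectionOnto_apply_of_mem_left hcS hs0
    rw [h1]
    intro h0
    exact hs1 (congrArg Subtype.val h0)
  let H : Option ((Fin r → A) →ₗ[A] S) → (V →ₗ[A] S) := fun o => o.elim πS G
  have hH : Function.Injective H := by
    intro a b hab
    cases a with
    | none =>
      cases b with
      | none => rfl
      | some ψ =>
        exfalso
        apply hπ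
        have h1 : πS = G ψ := hab
        rw [h1]
        exact hG2 ψ s0 (hSW hs0)
    | some ψ =>
      cases b with
      | none =>
        exfalso
        apply hπ
        have h1 : G ψ = πS := hab
        rw [← h1]
        exact hG2 ψ s0 (hSW hs0)
      | some ψ' =>
        have h1 : G ψ = G ψ' := hab
        congr 1
        apply LinearMap.ext
        intro x
        rw [← hG1 ψ x, ← hG1 ψ' x, h1]
  have hf1 : Finite ((Fin r → A) →ₗ[A] S) := gen_finite_free S r
  have hf2 : Finite (V →ₗ[A] S) := gen_finite_hom V S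
  have h1 := Nat.card_le_card_of_injective H hH
  rw [Finite.card_option, gen_card_free] at h1
  have h2 := h S hSs
  omega

/-- (Apply the semisimple case to `V/J`, `J` the intersection of the maximal submodules; a
submodule `N` with `N + J = V` is `V`; lift the generators.) -/
theorem exists_gen_of_card {A : Type} [Ring A] (V : Type) [AddCommGroup V] [Module A V]
    [Finite V] (r : ℕ)
    (h : ∀ (S : Type) [AddCommGroup S] [Module A S] [Finite S], IsSimpleModule A S →
      Nat.card (V →ₗ[A] S) ≤ Nat.card S ^ r) :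
    ∃ φ : (Fin r → A) →ₗ[A] V, Function.Surjective φ := by
  classical
  have hN : IsNoetherian A V := inferInstance
  have hAr : IsArtinian A V := inferInstance
  let J : Submodule A V := Module.jacobson A V
  have hss : IsSemisimpleModule A (V ⧸ J) :=
    (IsArtinian.isSemisimpleModule_iff_jacobson A (V ⧸ J)).2 (Module.jacobson_quotient_jacobson A V)
  have hfin : Finite (V ⧸ J) := Finite.of_surjective _ (Submodule.mkQ_surjective J)
  obtain ⟨φ, hφ⟩ := exists_gen_semisimple (V ⧸ J) r (by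
    intro S hS
    refine le_trans ?_ (h S hS)
    have : Finite (V →ₗ[A] S) := gen_finite_hom V S
    refine Nat.card_le_card_of_injective (fun f : (V ⧸ J) →ₗ[A] S => f ∘ₗ J.mkQ) ?_
    intro f g hfg
    exact Submodule.linearMap_qext J hfg)
  -- lift the generators
  choose v hv using fun i : Fin r => Submodule.mkQ_surjective J (φ (Pi.single i 1))
  let Φ : (Fin r → A) →ₗ[A] V := (Pi.basisFun A (Fin r)).constr ℕ v
  have hΦ : J.mkQ ∘ₗ Φ = φ := by
    apply (Pi.basisFun A (Fin r)).ext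
    intro i
    rw [LinearMap.comp_apply, Module.Basis.constr_basis, hv, Pi.basisFun_apply]
  refine ⟨Φ, ?_⟩
  rw [← LinearMap.range_eq_top]
  by_contra hne
  obtain ⟨M, hM, hle⟩ := (eq_top_or_exists_le_coatom (LinearMap.range Φ)).resolve_left hne
  have hJ : J ≤ M := sInf_le hM
  apply hM.1
  rw [eq_top_iff]
  rintro x -
  obtain ⟨y, hy⟩ := hφ (J.mkQ x)
  rw [← hΦ, LinearMap.comp_apply] at hy
  have h1 : Φ y - x ∈ J := by
    rw [← Submodule.Quotient.mk_eq_zero, Submodule.Quotient.mk_sub, sub_eq_zero]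
    exact hy
  have h2 : Φ y ∈ M := hle ⟨y, rfl⟩
  have h3 := M.sub_mem h2 (hJ h1)
  rwa [sub_sub_cancel] at h3

end Pool.Agent.Lib.MP_0e6cae_nt.SW
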