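import Pool.Agent.Lib.MP_0e6cae_nt.SW.HomC
import Pool.Agent.Lib.MP_0e6cae_nt.SW.Gen

/-!
Swan's theorem: a projective module over the integral group ring contains a free module with
finite index prime to any given integer.
-/

namespace Pool.Agent.Lib.MP_0e6cae_nt.SW

/-- (`card_hom` for the trivial module `𝔽_2`.) -/
theorem card_dvd_finrank {G : Type} [Group G] [Finite G] (P : Type)
    [AddCommGroup P] [Module (MonoidAlgebra ℤ G) P] [Module.Finite (MonoidAlgebra ℤ G) P]
    [Module.Projective (MonoidAlgebra ℤ G) P] : Nat.card G ∣ Module.finrank ℤ P := by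
  let _ : Module (MonoidAlgebra ℤ G) (ZMod 2) :=
    Module.compHom (ZMod 2) ((Int.castRingHom (ZMod 2)).comp (aug ℤ G).toRingHom)
  have : Fact (Nat.Prime 2) := ⟨Nat.prime_two⟩
  have h1 := card_hom 2 (G := G) P (ZMod 2) (fun y => by
    rw [nsmul_eq_mul]
    have h2 : ((2 : ℕ) : ZMod 2) = 0 := ZMod.natCast_self 2
    rw [h2, zero_mul])
  rw [Nat.card_zmod] at h1
  have hG : Nat.card G ≠ 0 := Nat.card_pos.ne'
  have h2 : Nat.card (P →ₗ[MonoidAlgebra ℤ G] (ZMod 2)) ∣ 2 ^ Module.finrank ℤ P := by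
    rw [← h1]
    exact dvd_pow_self _ hG
  obtain ⟨k, -, hk⟩ := (Nat.dvd_prime_pow Nat.prime_two).1 h2
  rw [hk, ← pow_mul] at h1
  have h3 := Nat.pow_right_injective (le_refl 2) h1
  rw [← h3]
  exact dvd_mul_left _ _

/-- (A finite simple `ℤ[G]`-module is killed by a prime; `card_hom`.) -/
theorem card_hom_simple {G : Type} [Group G] [Finite G] (P S : Type)
    [AddCommGroup P] [Module (MonoidAlgebra ℤ G) P] [Module.Finite (MonoidAlgebra ℤ G) P]
    [Module.Projective (MonoidAlgebra ℤ G) P]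
    [AddCommGroup S] [Module (MonoidAlgebra ℤ G) S] [Finite S]
    (hS : IsSimpleModule (MonoidAlgebra ℤ G) S) (r : ℕ) (hr : r * Nat.card G = Module.finrank ℤ P) :
    Nat.card (P →ₗ[MonoidAlgebra ℤ G] S) = Nat.card S ^ r := by
  have hnt : Nontrivial S := IsSimpleModule.nontrivial (MonoidAlgebra ℤ G) S
  have hcard : Nat.card S ≠ 1 := by
    intro h1
    have h2 := Finite.one_lt_card (α := S)
    omega
  have hℓ : (Nat.card S).minFac.Prime := Nat.minFac_prime hcard
  have : Fact (Nat.card S).minFac.Prime := ⟨hℓ⟩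
  obtain ⟨x, hx⟩ := exists_prime_addOrderOf_dvd_card' (Nat.card S).minFac
    (Nat.minFac_dvd (Nat.card S))
  have hx0 : x ≠ 0 := by
    intro h0
    rw [h0, addOrderOf_zero] at hx
    exact hℓ.one_lt.ne hx
  have hx1 : (Nat.card S).minFac • x = 0 := by
    rw [← hx]
    exact addOrderOf_nsmul_eq_zero x
  let K : Submodule (MonoidAlgebra ℤ G) S :=
    { carrier := {y | (Nat.card S).minFac • y = 0}
      add_mem' := by
        intro a b ha hb
        show _ • (a + b) = 0
        rw [smul_add, ha, hb, add_zero]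
      zero_mem' := smul_zero _
      smul_mem' := by
        intro c y hy
        show _ • (c • y) = 0
        rw [smul_comm, hy, smul_zero] }
  have hK : K = ⊤ := by
    rcases eq_bot_or_eq_top K with h | h
    · exfalso
      have h1 : x ∈ K := hx1
      rw [h, Submodule.mem_bot] at h1
      exact hx0 h1
    · exact h
  have hS' : ∀ y : S, (Nat.card S).minFac • y = 0 := by
    intro y
    have : y ∈ K := by rw [hK]; exact Submodule.mem_top
    exact this
  have h1 := card_hom (Nat.card S).minFac (G := G) P S hS'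
  rw [← hr, pow_mul] at h1
  exact Nat.pow_left_injective (n := Nat.card G) Nat.card_pos.ne' h1

/-- **Swan's theorem.** (Apply `exists_gen_of_card` to `P/2mP` and lift to `φ : ℤ[G]^r → P`;
the cokernel `T` satisfies `T = 2mT`, so it is killed by an `n ≡ 1` modulo `2m`; `φ` is injective
because the ranks are equal.) -/
theorem swan {G : Type} [Group G] [Finite G] (P : Type)
    [AddCommGroup P] [Module (MonoidAlgebra ℤ G) P] [Module.Finite (MonoidAlgebra ℤ G) P]
    [Module.Projective (MonoidAlgebra ℤ G) P] (m : ℕ) (hm : m ≠ 0) :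
    ∃ (r : ℕ) (φ : (Fin r → MonoidAlgebra ℤ G) →ₗ[MonoidAlgebra ℤ G] P) (n : ℕ),
      r * Nat.card G = Module.finrank ℤ P ∧ Function.Injective φ ∧ n ≠ 0 ∧ n.Coprime m ∧
      ∀ y : P, ∃ v, φ v = n • y := by
  classical
  obtain ⟨r, hr⟩ := card_dvd_finrank (G := G) P
  rw [mul_comm] at hr
  -- the finite module `P / 2 m P`
  let N : Submodule (MonoidAlgebra ℤ G) P := LinearMap.range
    (((2 * m : ℕ) • LinearMap.id : P →ₗ[MonoidAlgebra ℤ G] P))
  have hN : ∀ y ∈ N, ∃ z, y = (2 * m) • z := by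
    rintro y ⟨z, rfl⟩
    exact ⟨z, rfl⟩
  have hN' : ∀ z, (2 * m) • z ∈ N := fun z => ⟨z, rfl⟩
  have hfinP : Module.Finite ℤ P := Module.Finite.trans (MonoidAlgebra ℤ G) P
  have h2m : 2 * m ≠ 0 := by omega
  have hfinV : Finite (P ⧸ N) := by
    have h1 : Module.Finite ℤ (P ⧸ N) := Module.Finite.trans (MonoidAlgebra ℤ G) (P ⧸ N)
    refine Module.finite_of_fg_torsion (P ⧸ N) ?_
    intro y
    refine ⟨⟨((2 * m : ℕ) : ℤ), mem_nonZeroDivisors_of_ne_zero (by exact_mod_cast h2m)⟩, ?_⟩
    obtain ⟨z, rfl⟩ := N.mkQ_surjective y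
    show ((2 * m : ℕ) : ℤ) • N.mkQ z = 0
    rw [natCast_zsmul, ← map_nsmul, Submodule.mkQ_apply, Submodule.Quotient.mk_eq_zero]
    exact hN' z
  obtain ⟨φ0, hφ0⟩ := exists_gen_of_card (A := MonoidAlgebra ℤ G) (P ⧸ N) r (by
    intro S _ _ _ hS
    have h1 := card_hom_simple (G := G) P S hS r hr.symm
    have h2 : Finite (P →ₗ[MonoidAlgebra ℤ G] S) := by
      apply Nat.finite_of_card_ne_zero
      rw [h1]
      exact pow_ne_zero _ Nat.card_pos.ne'
    rw [← h1]
    refine Nat.card_le_card_of_injective (fun f => f ∘ₗ N.mkQ) ?_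
    intro f g hfg
    refine LinearMap.ext (fun v => ?_)
    obtain ⟨z, rfl⟩ := N.mkQ_surjective v
    exact LinearMap.congr_fun hfg z)
  obtain ⟨φ, hφ⟩ := Module.projective_lifting_property N.mkQ φ0 N.mkQ_surjective
  have hgen : ∀ y : P, ∃ v z, y = φ v + (2 * m) • z := by
    intro y
    obtain ⟨v, hv⟩ := hφ0 (N.mkQ y)
    rw [← hφ, LinearMap.comp_apply] at hv
    have h1 : y - φ v ∈ N := by
      rw [← Submodule.Quotient.mk_eq_zero, ← Submodule.mkQ_apply, map_sub, hv, sub_self]
    obtain ⟨z, hz⟩ := hN _ h1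
    exact ⟨v, z, by rw [← hz]; abel⟩
  -- the cokernel
  obtain ⟨c, hc, hc'⟩ : ∃ c : ℤ, c - 1 ∈ Ideal.span {((2 * m : ℕ) : ℤ)} ∧
      ∀ y : P, c • y ∈ LinearMap.range φ := by
    have h1 : Module.Finite ℤ (P ⧸ LinearMap.range φ) :=
      Module.Finite.trans (MonoidAlgebra ℤ G) _
    obtain ⟨c, hc, hc'⟩ := Submodule.exists_sub_one_mem_and_smul_eq_zero_of_fg_of_le_smul
      (Ideal.span {((2 * m : ℕ) : ℤ)}) (⊤ : Submodule ℤ (P ⧸ LinearMap.range φ))
      Module.Finite.fg_top (by
        intro t _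
        obtain ⟨y, rfl⟩ := (LinearMap.range φ).mkQ_surjective t
        obtain ⟨v, z, hy⟩ := hgen y
        have h2 : (LinearMap.range φ).mkQ y = ((2 * m : ℕ) : ℤ) • (LinearMap.range φ).mkQ z := by
          rw [hy, map_add, natCast_zsmul, ← map_nsmul]
          have h3 : (LinearMap.range φ).mkQ (φ v) = 0 := by
            rw [Submodule.mkQ_apply, Submodule.Quotient.mk_eq_zero]
            exact ⟨v, rfl⟩
          rw [h3, zero_add]
        rw [h2]
        exact Submodule.smul_mem_smul (Ideal.mem_span_singleton_self _) Submodule.mem_top)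
    refine ⟨c, hc, fun y => ?_⟩
    have h2 := hc' ((LinearMap.range φ).mkQ y) Submodule.mem_top
    rw [← map_zsmul, Submodule.mkQ_apply, Submodule.Quotient.mk_eq_zero] at h2
    exact h2
  rw [Ideal.mem_span_singleton] at hc
  have hc0 : c ≠ 0 := by
    rintro rfl
    obtain ⟨d, hd⟩ := hc
    have h1 : ((2 * m : ℕ) : ℤ) ∣ 1 := ⟨-d, by linarith⟩
    have h2 := Int.eq_one_of_dvd_one (by positivity) h1
    omega
  have hcm : IsCoprime c (m : ℤ) := by
    obtain ⟨d, hd⟩ := hc
    refine ⟨1, -(2 * d), ?_⟩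
    push_cast at hd
    linarith
  refine ⟨r, φ, c.natAbs, hr.symm, ?_, Int.natAbs_ne_zero.2 hc0, ?_, ?_⟩
  · -- injectivity
    obtain ⟨k, π, hπ⟩ := Module.Finite.exists_fin' (MonoidAlgebra ℤ G) P
    obtain ⟨σ, hσ⟩ := Module.projective_lifting_property π LinearMap.id hπ
    have hσi : Function.Injective σ := by
      intro a b hab
      have h1 := LinearMap.congr_fun hσ a
      have h2 := LinearMap.congr_fun hσ b
      rw [LinearMap.comp_apply] at h1 h2
      rw [hab, h2] at h1
      exact h1.symm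
    have htor : ∀ y : P, c • y = 0 → y = 0 := by
      intro y hy
      apply hσi
      have h1 : c • σ y = 0 := by rw [← map_zsmul, hy, map_zero]
      rw [map_zero]
      rcases smul_eq_zero.1 h1 with h2 | h2
      · exact absurd h2 hc0
      · exact h2
    let φz : (Fin r → MonoidAlgebra ℤ G) →ₗ[ℤ] P := φ.restrictScalars ℤ
    have h1 := (LinearMap.ker φz).finrank_quotient_add_finrank
    rw [(φz.quotKerEquivRange).finrank_eq] at h1
    have h2 : Module.finrank ℤ (Fin r → MonoidAlgebra ℤ G) = Module.finrank ℤ P := by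
      rw [Module.finrank_pi_fintype, Finset.sum_const, Finset.card_univ, Fintype.card_fin,
        smul_eq_mul, hr, Module.finrank_eq_nat_card_basis (MonoidAlgebra.basis G ℤ)]
    have h3 : Module.finrank ℤ P ≤ Module.finrank ℤ (LinearMap.range φz) := by
      let μ : P →ₗ[ℤ] LinearMap.range φz :=
        { toFun := fun y => ⟨c • y, hc' y⟩
          map_add' := fun a b => Subtype.ext (smul_add c a b)
          map_smul' := fun a b => Subtype.ext (smul_comm c a b) }
      refine LinearMap.finrank_le_finrank_of_injective (f := μ) ?_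
      intro a b hab
      have h4 : c • a = c • b := congrArg Subtype.val hab
      have h5 : c • (a - b) = 0 := by rw [smul_sub, h4, sub_self]
      exact sub_eq_zero.1 (htor _ h5)
    have h4 : Module.finrank ℤ (LinearMap.ker φz) = 0 := by omega
    rw [Submodule.finrank_eq_zero] at h4
    have h5 : Function.Injective φz := LinearMap.ker_eq_bot.1 h4
    exact h5
  · rw [Nat.Coprime]
    have h1 := Int.isCoprime_iff_gcd_eq_one.1 hcm
    rw [Int.gcd_def, Int.natAbs_natCast] at h1
    exact h1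
  · intro y
    obtain ⟨v, hv⟩ := hc' y
    rcases Int.natAbs_eq c with h1 | h1
    · refine ⟨v, ?_⟩
      rw [hv]
      conv_lhs => rw [h1]
      rw [natCast_zsmul]
    · refine ⟨-v, ?_⟩
      rw [map_neg, hv]
      conv_lhs => rw [h1]
      rw [neg_smul, neg_neg, natCast_zsmul]

end Pool.Agent.Lib.MP_0e6cae_nt.SW
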