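import Pool.Agent.Lib.MP_0e6cae_nt.SW.TrB

/-!
The trace of an idempotent over `ℤ/ℓ^k`; lifting of bases.
-/

namespace Pool.Agent.Lib.MP_0e6cae_nt.SW

theorem cst_surjective (ℓ k : ℕ) (hk : k ≠ 0) : Function.Surjective (cst ℓ k hk) :=
  ZMod.castHom_surjective (dvd_pow_self ℓ hk)

theorem cst_natCast (ℓ k : ℕ) (hk : k ≠ 0) (m : ℕ) : cst ℓ k hk (m : ZMod (ℓ ^ k)) = m :=
  map_natCast _ m

theorem cst_eq_zero (ℓ k : ℕ) [Fact ℓ.Prime] (hk : k ≠ 0) {a : ZMod (ℓ ^ k)}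
    (h : cst ℓ k hk a = 0) : ∃ b, a = (ℓ : ZMod (ℓ ^ k)) * b := by
  have : NeZero (ℓ ^ k) := ⟨pow_ne_zero _ (Fact.out : ℓ.Prime).ne_zero⟩
  rw [← ZMod.natCast_zmod_val a, cst_natCast, ZMod.natCast_eq_zero_iff] at h
  obtain ⟨c, hc⟩ := h
  refine ⟨c, ?_⟩
  rw [← ZMod.natCast_zmod_val a, hc]
  push_cast
  rfl

theorem dvd_of_pow_mul_eq_zero (ℓ k : ℕ) [Fact ℓ.Prime] {j : ℕ} (hj : j < k) {a : ZMod (ℓ ^ k)}
    (h : (ℓ : ZMod (ℓ ^ k)) ^ j * a = 0) : ∃ b, a = (ℓ : ZMod (ℓ ^ k)) * b := by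
  have hp : ℓ.Prime := Fact.out
  have : NeZero (ℓ ^ k) := ⟨pow_ne_zero _ hp.ne_zero⟩
  rw [← ZMod.natCast_zmod_val a] at h
  have h1 : ((ℓ ^ j * a.val : ℕ) : ZMod (ℓ ^ k)) = 0 := by
    push_cast
    exact h
  rw [ZMod.natCast_eq_zero_iff] at h1
  have h2 : ℓ ^ j * ℓ ∣ ℓ ^ j * a.val := by
    rw [← pow_succ]
    exact (pow_dvd_pow ℓ hj).trans h1
  obtain ⟨c, hc⟩ := Nat.dvd_of_mul_dvd_mul_left (pow_pos hp.pos j) h2
  refine ⟨c, ?_⟩
  rw [← ZMod.natCast_zmod_val a, hc]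
  push_cast
  rfl

section

variable (ℓ k : ℕ) [Fact ℓ.Prime] (hk : k ≠ 0) (V V₀ : Type) [AddCommGroup V]
    [Module (ZMod (ℓ ^ k)) V] [AddCommGroup V₀] [Module (ZMod ℓ) V₀]

omit [Fact ℓ.Prime] in
/-- the powers of `ℓ` vanish -/
theorem pow_k_smul (v : V) : (ℓ : ZMod (ℓ ^ k)) ^ k • v = 0 := by
  have h : (ℓ : ZMod (ℓ ^ k)) ^ k = 0 := by
    rw [← Nat.cast_pow]
    exact ZMod.natCast_self (ℓ ^ k)
  rw [h, zero_smul]

theorem cst_nsmul_zero (π : V →+ V₀) (v : V) : π (ℓ • v) = 0 := by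
  rw [map_nsmul, ← Nat.cast_smul_eq_nsmul (ZMod ℓ), ZMod.natCast_self, zero_smul]

/-- a family in the module whose reduction is linearly independent is linearly independent -/
theorem lift_li [Module.Free (ZMod (ℓ ^ k)) V] (π : V →+ V₀)
    (hπr : ∀ (r : ZMod (ℓ ^ k)) v, π (r • v) = cst ℓ k hk r • π v)
    {κ : Type} [Finite κ] (w : κ → V) (hli : LinearIndependent (ZMod ℓ) fun q => π (w q)) :
    LinearIndependent (ZMod (ℓ ^ k)) w := by
  classical
  cases nonempty_fintype κ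
  rw [Fintype.linearIndependent_iff] at hli ⊢
  intro r hr
  have key : ∀ j, j ≤ k → ∃ s : κ → ZMod (ℓ ^ k), ∀ q, r q = (ℓ : ZMod (ℓ ^ k)) ^ j * s q := by
    intro j
    induction j with
    | zero => exact fun _ => ⟨r, fun q => by rw [pow_zero, one_mul]⟩
    | succ j ih =>
      intro hj
      obtain ⟨s, hs⟩ := ih (Nat.le_of_succ_le hj)
      have h1 : (ℓ : ZMod (ℓ ^ k)) ^ j • ∑ q, s q • w q = 0 := by
        rw [← hr, Finset.smul_sum]
        exact Finset.sum_congr rfl fun q _ => by rw [hs q, mul_smul]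
      set x := ∑ q, s q • w q with hx
      have b := Module.Free.chooseBasis (ZMod (ℓ ^ k)) V
      have h2 : ∀ i, ∃ a', b.repr x i = (ℓ : ZMod (ℓ ^ k)) * a' := by
        intro i
        refine dvd_of_pow_mul_eq_zero ℓ k (Nat.lt_of_succ_le hj) ?_
        have h3 := congrArg (fun v => b.repr v i) h1
        simpa using h3
      have h4 : ∃ x' : V, x = ℓ • x' := by
        choose a' ha' using h2
        refine ⟨∑ i ∈ (b.repr x).support, a' i • b i, ?_⟩
        have h5 := b.linearCombination_repr x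
        rw [Finsupp.linearCombination_apply, Finsupp.sum] at h5
        rw [Finset.smul_sum]
        conv_lhs => rw [← h5]
        refine Finset.sum_congr rfl fun i _ => ?_
        rw [ha' i, mul_smul, Nat.cast_smul_eq_nsmul]
      obtain ⟨x', hx'⟩ := h4
      have h6 : ∑ q, cst ℓ k hk (s q) • π (w q) = 0 := by
        have h7 : π x = 0 := by rw [hx', cst_nsmul_zero]
        rw [hx, map_sum] at h7
        rw [← h7]
        exact Finset.sum_congr rfl fun q _ => (hπr _ _).symm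
      have h8 : ∀ q, ∃ s', s q = (ℓ : ZMod (ℓ ^ k)) * s' :=
        fun q => cst_eq_zero ℓ k hk (hli _ h6 q)
      choose s' hs' using h8
      refine ⟨s', fun q => ?_⟩
      rw [hs q, hs' q, pow_succ, mul_assoc]
  obtain ⟨s, hs⟩ := key k le_rfl
  intro q
  have h9 := pow_k_smul ℓ k (ZMod (ℓ ^ k)) (s q)
  rw [hs q]
  exact h9

/-- a family in the image of `e'` whose reduction spans the image of `e` spans (Nakayama) -/
theorem lift_sp (π : V →+ V₀)
    (hπ' : ∀ v, π v = 0 → ∃ v', v = ℓ • v')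
    (hπr : ∀ (r : ZMod (ℓ ^ k)) v, π (r • v) = cst ℓ k hk r • π v)
    (e' : V →ₗ[ZMod (ℓ ^ k)] V) (he' : e' ∘ₗ e' = e') (e : V₀ →ₗ[ZMod ℓ] V₀)
    (hee : ∀ v, π (e' v) = e (π v))
    {κ : Type} [Finite κ] (w : κ → V) (hw : ∀ q, e' (w q) = w q)
    (hsp : ∀ v, e v = v → v ∈ Submodule.span (ZMod ℓ) (Set.range fun q => π (w q)))
    (v : V) (hv : e' v = v) : v ∈ Submodule.span (ZMod (ℓ ^ k)) (Set.range w) := by
  classical
  cases nonempty_fintype κ
  have step : ∀ v, e' v = v → ∃ u ∈ Submodule.span (ZMod (ℓ ^ k)) (Set.range w),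
      ∃ v', e' v' = v' ∧ v = u + (ℓ : ZMod (ℓ ^ k)) • v' := by
    intro v hv
    have h1 : e (π v) = π v := by rw [← hee, hv]
    have h2 := hsp _ h1
    rw [Submodule.mem_span_range_iff_exists_fun] at h2
    obtain ⟨c, hc⟩ := h2
    choose r hr using fun q => cst_surjective ℓ k hk (c q)
    have h3 : π (v - ∑ q, r q • w q) = 0 := by
      rw [map_sub, map_sum, ← hc, sub_eq_zero]
      exact Finset.sum_congr rfl fun q _ => by rw [hπr, hr]
    obtain ⟨v', hv'⟩ := hπ' _ h3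
    refine ⟨∑ q, r q • w q, ?_, e' v', ?_, ?_⟩
    · exact Submodule.sum_mem _ fun q _ =>
        Submodule.smul_mem _ _ (Submodule.subset_span ⟨q, rfl⟩)
    · exact LinearMap.congr_fun he' v'
    · have h4 := congrArg e' hv'
      rw [map_sub, hv, map_sum, map_nsmul] at h4
      have h5 : ∑ q, e' (r q • w q) = ∑ q, r q • w q :=
        Finset.sum_congr rfl fun q _ => by rw [map_smul, hw q]
      rw [h5] at h4
      rw [Nat.cast_smul_eq_nsmul, ← h4]
      abel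
  have key : ∀ j : ℕ, ∀ v, e' v = v → ∃ u ∈ Submodule.span (ZMod (ℓ ^ k)) (Set.range w),
      ∃ v', e' v' = v' ∧ v = u + (ℓ : ZMod (ℓ ^ k)) ^ j • v' := by
    intro j
    induction j with
    | zero => exact fun v hv => ⟨0, Submodule.zero_mem _, v, hv, by rw [pow_zero, one_smul, zero_add]⟩
    | succ j ih =>
      intro v hv
      obtain ⟨u, hu, v', hv', e1⟩ := ih v hv
      obtain ⟨u', hu', v'', hv'', e2⟩ := step v' hv'
      refine ⟨u + (ℓ : ZMod (ℓ ^ k)) ^ j • u', Submodule.add_mem _ hu (Submodule.smul_mem _ _ hu'),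
        v'', hv'', ?_⟩
      rw [pow_succ, mul_smul, add_assoc, ← smul_add, ← e2]
      exact e1
  obtain ⟨u, hu, v', _, e1⟩ := key k v hv
  rw [pow_k_smul ℓ k, add_zero] at e1
  rw [e1]
  exact hu

/-- the trace of `f ∘ e'` in terms of a lifted basis of the image of `e` -/
theorem exists_basis [Module.Free (ZMod (ℓ ^ k)) V] (π : V →+ V₀)
    (hπ' : ∀ v, π v = 0 → ∃ v', v = ℓ • v')
    (hπr : ∀ (r : ZMod (ℓ ^ k)) v, π (r • v) = cst ℓ k hk r • π v)
    (e' : V →ₗ[ZMod (ℓ ^ k)] V) (he' : e' ∘ₗ e' = e') (e : V₀ →ₗ[ZMod ℓ] V₀)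
    (hee : ∀ v, π (e' v) = e (π v))
    {κ : Type} [Finite κ] (w : κ → V) (hw : ∀ q, e' (w q) = w q)
    (hli : LinearIndependent (ZMod ℓ) fun q => π (w q))
    (hsp : ∀ v, e v = v → v ∈ Submodule.span (ZMod ℓ) (Set.range fun q => π (w q))) :
    ∃ b : Module.Basis κ (ZMod (ℓ ^ k)) (LinearMap.range e'), ∀ q, (b q : V) = w q := by
  let w' : κ → LinearMap.range e' := fun q => ⟨w q, ⟨w q, hw q⟩⟩
  have h1 : LinearIndependent (ZMod (ℓ ^ k)) w' := by
    have h2 := lift_li ℓ k hk V V₀ π hπr w hli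
    exact LinearIndependent.of_comp (LinearMap.range e').subtype h2
  have h2 : ⊤ ≤ Submodule.span (ZMod (ℓ ^ k)) (Set.range w') := by
    rintro ⟨x, y, rfl⟩ -
    have h3 : e' (e' y) = e' y := LinearMap.congr_fun he' y
    have h4 := lift_sp ℓ k hk V V₀ π hπ' hπr e' he' e hee w hw hsp (e' y) h3
    have h5 : Set.range w = (LinearMap.range e').subtype '' Set.range w' := by
      rw [← Set.range_comp]
      rfl
    rw [h5, Submodule.span_image] at h4
    obtain ⟨x, hx, hx'⟩ := h4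
    have h6 : x = ⟨e' y, ⟨y, rfl⟩⟩ := Subtype.ext hx'
    rw [← h6]
    exact hx
  exact ⟨Module.Basis.mk h1 h2, fun q => by rw [Module.Basis.mk_apply]⟩

end

/-- The trace of an idempotent `e'` over the local ring `ℤ/ℓ^k` is the rank of its reduction `e`. -/
theorem trace_idem (ℓ k : ℕ) [Fact ℓ.Prime] (hk : k ≠ 0) (V V₀ : Type) [AddCommGroup V]
    [Module (ZMod (ℓ ^ k)) V] [Module.Free (ZMod (ℓ ^ k)) V] [Module.Finite (ZMod (ℓ ^ k)) V]
    [AddCommGroup V₀] [Module (ZMod ℓ) V₀] (π : V →+ V₀) (hπ : Function.Surjective π)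
    (hπ' : ∀ v, π v = 0 → ∃ v', v = ℓ • v')
    (hπr : ∀ (r : ZMod (ℓ ^ k)) v, π (r • v) = cst ℓ k hk r • π v)
    (e' : V →ₗ[ZMod (ℓ ^ k)] V) (he' : e' ∘ₗ e' = e') (e : V₀ →ₗ[ZMod ℓ] V₀)
    (hee : ∀ v, π (e' v) = e (π v)) :
    LinearMap.trace (ZMod (ℓ ^ k)) V e' =
      ((Module.finrank (ZMod ℓ) (LinearMap.range e) : ℕ) : ZMod (ℓ ^ k)) := by
  classical
  have : NeZero (ℓ ^ k) := ⟨pow_ne_zero _ (Fact.out : ℓ.Prime).ne_zero⟩
  have : Fact (1 < ℓ ^ k) := ⟨Nat.one_lt_pow hk (Fact.out : ℓ.Prime).one_lt⟩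
  have : Finite V := Module.finite_of_finite (ZMod (ℓ ^ k))
  have : Finite V₀ := Finite.of_surjective π hπ
  have : Module.Finite (ZMod ℓ) V₀ := Module.Finite.of_finite
  have hee' : ∀ x, e (e x) = e x := by
    intro x
    obtain ⟨v, rfl⟩ := hπ x
    rw [← hee, ← hee]
    exact congrArg π (LinearMap.congr_fun he' v)
  let b₀ := Module.finBasis (ZMod ℓ) (LinearMap.range e)
  choose v hv using fun q => hπ ((b₀ q : V₀))
  have h1 : ∀ q, π (e' (v q)) = (b₀ q : V₀) := by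
    intro q
    rw [hee, hv]
    obtain ⟨x, hx⟩ := (b₀ q).2
    rw [← hx, hee']
  have hli : LinearIndependent (ZMod ℓ) fun q => π (e' (v q)) := by
    have h2 : (fun q => π (e' (v q))) = (LinearMap.range e).subtype ∘ b₀ := by
      funext q
      exact h1 q
    rw [h2]
    exact b₀.linearIndependent.map' _ (Submodule.ker_subtype _)
  have hsp : ∀ x, e x = x → x ∈ Submodule.span (ZMod ℓ) (Set.range fun q => π (e' (v q))) := by
    intro x hx
    have h2 : (Set.range fun q => π (e' (v q))) = (LinearMap.range e).subtype '' Set.range b₀ := by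
      rw [← Set.range_comp]
      congr 1
      funext q
      exact h1 q
    rw [h2, Submodule.span_image, b₀.span_eq, Submodule.map_top, Submodule.range_subtype]
    exact ⟨x, hx⟩
  obtain ⟨b, hb⟩ := exists_basis ℓ k hk V V₀ π hπ' hπr e' he' e hee (fun q => e' (v q))
    (fun q => LinearMap.congr_fun he' (v q)) hli hsp
  have : Module.Free (ZMod (ℓ ^ k)) (LinearMap.range e') := Module.Free.of_basis b
  have : Module.Finite (ZMod (ℓ ^ k)) (LinearMap.range e') := Module.Finite.of_basis b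
  have h3 : e' = (LinearMap.range e').subtype ∘ₗ e'.rangeRestrict := rfl
  have h4 : e'.rangeRestrict ∘ₗ (LinearMap.range e').subtype = LinearMap.id := by
    ext ⟨x, y, rfl⟩
    exact LinearMap.congr_fun he' y
  have h5 : LinearMap.trace (ZMod (ℓ ^ k)) V e' =
      LinearMap.trace (ZMod (ℓ ^ k)) (LinearMap.range e')
        (e'.rangeRestrict ∘ₗ (LinearMap.range e').subtype) := by
    conv_lhs => rw [h3]
    exact LinearMap.trace_comp_comm' _ _
  rw [h5, h4, LinearMap.trace_id, Module.finrank_eq_card_basis b, Fintype.card_fin]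

/-- The trace of `f ∘ e'`, where `e'` is idempotent, `f` commutes with `e'` and the image of `e'`
has, modulo `ℓ`, a basis which is permuted without fixed points by a permutation `σ` in the way
given by lifts `w q`: `f (w q) = w (σ q)`. -/
theorem trace_perm (ℓ k : ℕ) [Fact ℓ.Prime] (hk : k ≠ 0) (V V₀ : Type) [AddCommGroup V]
    [Module (ZMod (ℓ ^ k)) V] [Module.Free (ZMod (ℓ ^ k)) V] [Module.Finite (ZMod (ℓ ^ k)) V]
    [AddCommGroup V₀] [Module (ZMod ℓ) V₀] (π : V →+ V₀) (hπ : Function.Surjective π)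
    (hπ' : ∀ v, π v = 0 → ∃ v', v = ℓ • v')
    (hπr : ∀ (r : ZMod (ℓ ^ k)) v, π (r • v) = cst ℓ k hk r • π v)
    (e' : V →ₗ[ZMod (ℓ ^ k)] V) (he' : e' ∘ₗ e' = e') (e : V₀ →ₗ[ZMod ℓ] V₀)
    (hee : ∀ v, π (e' v) = e (π v)) (f : V →ₗ[ZMod (ℓ ^ k)] V) (hf : f ∘ₗ e' = e' ∘ₗ f)
    (κ : Type) [Finite κ] (w : κ → V) (hw : ∀ q, e' (w q) = w q)
    (hli : LinearIndependent (ZMod ℓ) fun q => π (w q))
    (hsp : ∀ v, e v = v → v ∈ Submodule.span (ZMod ℓ) (Set.range fun q => π (w q)))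
    (σ : κ → κ) (hσ : ∀ q, σ q ≠ q) (hfw : ∀ q, f (w q) = w (σ q)) :
    LinearMap.trace (ZMod (ℓ ^ k)) V (f ∘ₗ e') = 0 := by
  classical
  cases nonempty_fintype κ
  obtain ⟨b, hb⟩ := exists_basis ℓ k hk V V₀ π hπ' hπr e' he' e hee w hw hli hsp
  have : Module.Free (ZMod (ℓ ^ k)) (LinearMap.range e') := Module.Free.of_basis b
  have : Module.Finite (ZMod (ℓ ^ k)) (LinearMap.range e') := Module.Finite.of_basis b
  have h3 : f ∘ₗ e' = (f ∘ₗ (LinearMap.range e').subtype) ∘ₗ e'.rangeRestrict := rfl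
  have h5 : LinearMap.trace (ZMod (ℓ ^ k)) V (f ∘ₗ e') =
      LinearMap.trace (ZMod (ℓ ^ k)) (LinearMap.range e')
        (e'.rangeRestrict ∘ₗ (f ∘ₗ (LinearMap.range e').subtype)) := by
    rw [h3]
    exact LinearMap.trace_comp_comm' _ _
  rw [h5, LinearMap.trace_eq_matrix_trace _ b, Matrix.trace]
  refine Finset.sum_eq_zero fun q _ => ?_
  rw [Matrix.diag_apply, LinearMap.toMatrix_apply]
  have h6 : (e'.rangeRestrict ∘ₗ (f ∘ₗ (LinearMap.range e').subtype)) (b q) = b (σ q) := by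
    apply Subtype.ext
    show e' (f (b q : V)) = (b (σ q) : V)
    rw [hb q, hfw q, hw, hb]
  rw [h6, Module.Basis.repr_self, Finsupp.single_apply, if_neg (hσ q)]

end Pool.Agent.Lib.MP_0e6cae_nt.SW
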