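import Pool.Agent.Lib.MP_0e6cae_nt.SW.Base

/-!
The fixed points of `G` in the image of an idempotent endomorphism of `𝔽_ℓ[G]^s`.
-/

namespace Pool.Agent.Lib.MP_0e6cae_nt.SW

section

variable {R : Type} [CommRing R] {G : Type} [Group G] [Fintype G]

/-- The sum of all elements of the group. -/
noncomputable def nrmG (R : Type) [CommRing R] (G : Type) [Group G] [Fintype G] :
    MonoidAlgebra R G := ∑ g : G, MonoidAlgebra.single g 1

theorem coeff_nrmG (h : G) : (nrmG R G).coeff h = 1 := by
  classical
  rw [nrmG, MonoidAlgebra.coeff_sum, Finset.sum_apply', Finset.sum_eq_single h]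
  · simp
  · intro g _ hg
    rw [MonoidAlgebra.coeff_single, Finsupp.single_apply, if_neg hg]
  · intro hh
    exact absurd (Finset.mem_univ h) hh

theorem single_mul_nrmG (g : G) : MonoidAlgebra.single g (1 : R) * nrmG R G = nrmG R G := by
  rw [nrmG, Finset.mul_sum]
  refine Fintype.sum_equiv (Equiv.mulLeft g) _ _ fun h => ?_
  rw [MonoidAlgebra.single_mul_single, one_mul]
  rfl

theorem nrmG_mul_single (g : G) (r : R) :
    nrmG R G * MonoidAlgebra.single g r = r • nrmG R G := by
  rw [nrmG, Finset.sum_mul, Finset.smul_sum]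
  refine Fintype.sum_equiv (Equiv.mulRight g) _ _ fun h => ?_
  rw [MonoidAlgebra.single_mul_single, one_mul, MonoidAlgebra.smul_single, smul_eq_mul, mul_one]
  rfl

theorem nrmG_mul (x : MonoidAlgebra R G) : nrmG R G * x = aug R G x • nrmG R G := by
  induction x using MonoidAlgebra.induction_linear with
  | zero => rw [mul_zero, map_zero, zero_smul]
  | add x y hx hy => rw [mul_add, map_add, add_smul, hx, hy]
  | single g r => rw [nrmG_mul_single, aug_single]

/-- The elements fixed by the group. -/
theorem eq_smul_nrmG {x : MonoidAlgebra R G}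
    (hx : ∀ g : G, MonoidAlgebra.single g (1 : R) * x = x) : x = x.coeff 1 • nrmG R G := by
  ext h
  rw [MonoidAlgebra.coeff_smul_apply, coeff_nrmG, smul_eq_mul, mul_one]
  have h1 : (MonoidAlgebra.single h (1 : R) * x).coeff h = 1 * x.coeff 1 :=
    MonoidAlgebra.coeff_single_mul_eq_mul_coeff 1 (fun m _ => by simp)
  rw [hx, one_mul] at h1
  exact h1

theorem smul_nrmG_inj {r r' : R} (h : r • nrmG R G = r' • nrmG R G) : r = r' := by
  have h1 := congrArg (fun x : MonoidAlgebra R G => x.coeff 1) h
  simp only [MonoidAlgebra.coeff_smul_apply, coeff_nrmG, smul_eq_mul, mul_one] at h1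
  exact h1

/-- The endomorphism on the multiples of the sum of the group. -/
theorem map_smul_nrmG {s : ℕ}
    (a : (Fin s → MonoidAlgebra R G) →ₗ[MonoidAlgebra R G] (Fin s → MonoidAlgebra R G))
    (l : Fin s → R) : a (fun i => l i • nrmG R G) = fun j => augM a l j • nrmG R G := by
  have h1 : (fun i => l i • nrmG R G) =
      ∑ i, (l i • nrmG R G) • (Pi.single i (1 : MonoidAlgebra R G) : Fin s → MonoidAlgebra R G) := by
    funext j
    rw [Finset.sum_apply, Finset.sum_eq_single j]
    · rw [Pi.smul_apply, Pi.single_eq_same, smul_eq_mul, mul_one]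
    · intro i _ hi
      rw [Pi.smul_apply, Pi.single_eq_of_ne hi.symm, smul_zero]
    · intro h
      exact absurd (Finset.mem_univ j) h
  rw [h1, map_sum]
  funext j
  rw [Finset.sum_apply, augM_apply, Finset.sum_smul]
  refine Finset.sum_congr rfl fun i _ => ?_
  rw [map_smul, Pi.smul_apply, smul_eq_mul, smul_mul_assoc, nrmG_mul, smul_smul]

end

theorem card_fix (ℓ : ℕ) [Fact ℓ.Prime] {G : Type} [Group G] [Finite G] {s : ℕ}
    (e : (Fin s → MonoidAlgebra (ZMod ℓ) G) →ₗ[MonoidAlgebra (ZMod ℓ) G]
      (Fin s → MonoidAlgebra (ZMod ℓ) G)) (he : e ∘ₗ e = e) :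
    Nat.card {v : Fin s → MonoidAlgebra (ZMod ℓ) G // e v = v ∧
      ∀ g : G, (MonoidAlgebra.single g (1 : ZMod ℓ) : MonoidAlgebra (ZMod ℓ) G) • v = v} =
      ℓ ^ Module.finrank (ZMod ℓ) (LinearMap.range (augM e)) := by
  have := Fintype.ofFinite G
  have hidem : ∀ l, augM e (augM e l) = augM e l := by
    intro l
    funext j
    apply smul_nrmG_inj (G := G)
    have h1 := map_smul_nrmG e l
    have h2 := map_smul_nrmG e (augM e l)
    have h3 : e (e (fun i => l i • nrmG (ZMod ℓ) G)) = e (fun i => l i • nrmG (ZMod ℓ) G) :=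
      LinearMap.congr_fun he _
    rw [h1, h2] at h3
    exact congrFun h3 j
  have hfix : ∀ l, l ∈ LinearMap.range (augM e) ↔ augM e l = l := by
    intro l
    constructor
    · rintro ⟨l', rfl⟩
      exact hidem l'
    · intro h
      exact ⟨l, h⟩
  let φ : LinearMap.range (augM e) ≃ {v : Fin s → MonoidAlgebra (ZMod ℓ) G // e v = v ∧
      ∀ g : G, (MonoidAlgebra.single g (1 : ZMod ℓ) : MonoidAlgebra (ZMod ℓ) G) • v = v} :=
    { toFun := fun l => ⟨fun i => l.1 i • nrmG (ZMod ℓ) G, by
        refine ⟨?_, fun g => ?_⟩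
        · rw [map_smul_nrmG, (hfix l.1).1 l.2]
        · funext i
          rw [Pi.smul_apply, smul_eq_mul, mul_smul_comm, single_mul_nrmG]⟩
      invFun := fun v => ⟨fun i => (v.1 i).coeff 1, by
        rw [hfix]
        funext j
        apply smul_nrmG_inj (G := G)
        have h1 : ∀ i, v.1 i = (v.1 i).coeff 1 • nrmG (ZMod ℓ) G := by
          intro i
          apply eq_smul_nrmG
          intro g
          have h2 := congrFun (v.2.2 g) i
          rwa [Pi.smul_apply, smul_eq_mul] at h2
        have h3 : v.1 = fun i => (v.1 i).coeff 1 • nrmG (ZMod ℓ) G := funext h1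
        have h4 := v.2.1
        rw [h3, map_smul_nrmG] at h4
        exact congrFun h4 j⟩
      left_inv := by
        intro l
        apply Subtype.ext
        funext i
        show (l.1 i • nrmG (ZMod ℓ) G).coeff 1 = l.1 i
        rw [MonoidAlgebra.coeff_smul_apply, coeff_nrmG, smul_eq_mul, mul_one]
      right_inv := by
        intro v
        apply Subtype.ext
        funext i
        refine (eq_smul_nrmG ?_).symm
        intro g
        have h2 := congrFun (v.2.2 g) i
        rwa [Pi.smul_apply, smul_eq_mul] at h2 }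
  rw [← Nat.card_congr φ, Module.natCard_eq_pow_finrank (K := ZMod ℓ), Nat.card_zmod]

end Pool.Agent.Lib.MP_0e6cae_nt.SW
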