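import Pool.Agent.Lib.MP_0e6cae_nt.SW.TrA
import Pool.Agent.Lib.MP_0e6cae_nt.SW.TrD
import Pool.Agent.Lib.MP_0e6cae_nt.SW.TrE

/-!
The number of fixed points of `G` in a projective `𝔽_ℓ[G]`-module whose restrictions to the cyclic
subgroups are free.
-/

namespace Pool.Agent.Lib.MP_0e6cae_nt.SW

theorem TrF_map_smul {R R' G : Type} [CommRing R] [CommRing R'] [Group G] (q : R →+* R') (x : MonoidAlgebra R G) (r : R) : MonoidAlgebra.mapRingHom G q (r • x) = q r • MonoidAlgebra.mapRingHom G q x := by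
  have h1 : r • x = MonoidAlgebra.single 1 r * x := by
    rw [Algebra.smul_def]
    rfl
  have h2 : q r • MonoidAlgebra.mapRingHom G q x =
      MonoidAlgebra.single 1 (q r) * MonoidAlgebra.mapRingHom G q x := by
    rw [Algebra.smul_def]
    rfl
  rw [h1, h2, map_mul, MonoidAlgebra.mapRingHom_single]

theorem TrF_aug {R R' G : Type} [CommRing R] [CommRing R'] [Group G] (q : R →+* R') (x : MonoidAlgebra R G) : q (aug R G x) = aug R' G (MonoidAlgebra.mapRingHom G q x) := by
  induction x using MonoidAlgebra.induction_on with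
  | of g => simp [aug]
  | add x y hx hy => simp [map_add, hx, hy]
  | smul r x hx => rw [map_smul (aug R G), TrF_map_smul, map_smul (aug R' G), smul_eq_mul, smul_eq_mul, map_mul, hx]

theorem TrF_augM_comp {R G : Type} [CommRing R] [Group G] {s : ℕ}
    (a b : (Fin s → MonoidAlgebra R G) →ₗ[MonoidAlgebra R G] (Fin s → MonoidAlgebra R G)) :
    augM (a ∘ₗ b) = augM a ∘ₗ augM b := by
  refine LinearMap.ext (fun l => ?_)
  funext j
  rw [LinearMap.comp_apply, augM_apply, augM_apply]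
  have h1 : ∀ m, aug R G ((a ∘ₗ b) (Pi.single m 1) j) =
      ∑ i, aug R G (b (Pi.single m 1) i) * aug R G (a (Pi.single i 1) j) := by
    intro m
    have h2 : b (Pi.single m 1) = ∑ i, b (Pi.single m 1) i • (Pi.single i 1 : Fin s → MonoidAlgebra R G) := by
      funext k
      rw [Finset.sum_apply, Finset.sum_eq_single k]
      · simp
      · intro i _ hik
        simp [Ne.symm hik]
      · intro h
        exact absurd (Finset.mem_univ _) h
    rw [LinearMap.comp_apply]
    conv_lhs => rw [h2]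
    rw [map_sum, Finset.sum_apply, map_sum]
    refine Finset.sum_congr rfl (fun i _ => ?_)
    rw [map_smul, Pi.smul_apply, smul_eq_mul, map_mul]
  simp only [augM_apply, h1, Finset.mul_sum, Finset.sum_mul]
  rw [Finset.sum_comm]
  exact Finset.sum_congr rfl (fun i _ => Finset.sum_congr rfl (fun m _ => by ring))


theorem TrF_red {R R' G : Type} [CommRing R] [CommRing R'] [Group G] (q : R →+* R') (s : ℕ)
    (x : MonoidAlgebra R G) (v : Fin s → MonoidAlgebra R G) :
    red q G s (x • v) = MonoidAlgebra.mapRingHom G q x • red q G s v := by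
  funext i
  rw [red_apply, Pi.smul_apply, Pi.smul_apply, red_apply, smul_eq_mul, smul_eq_mul, map_mul]

/-- the coefficientwise map -/
def TrF_pi {R R' : Type} [CommRing R] [CommRing R'] (q : R →+* R') (s : ℕ) :
    (Fin s → R) →+ (Fin s → R') :=
  { toFun := fun v i => q (v i)
    map_zero' := by funext i; simp
    map_add' := fun v w => by funext i; simp }

theorem TrF_mod (ℓ : ℕ) [Fact ℓ.Prime] {G : Type} [Group G] [Fintype G] {s : ℕ}
    (e : (Fin s → MonoidAlgebra (ZMod ℓ) G) →ₗ[MonoidAlgebra (ZMod ℓ) G]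
      (Fin s → MonoidAlgebra (ZMod ℓ) G)) (he : e ∘ₗ e = e)
    (hfree : ∀ g : G, g ≠ 1 → ∃ (t : ℕ) (w : Fin t → (Fin s → MonoidAlgebra (ZMod ℓ) G)),
      (∀ j, e (w j) = w j) ∧
      (LinearIndependent (ZMod ℓ) fun q : Subgroup.zpowers g × Fin t =>
        (MonoidAlgebra.single (q.1 : G) (1 : ZMod ℓ) : MonoidAlgebra (ZMod ℓ) G) • w q.2) ∧
      ∀ v, e v = v → v ∈ Submodule.span (ZMod ℓ) (Set.range fun q : Subgroup.zpowers g × Fin t =>
        (MonoidAlgebra.single (q.1 : G) (1 : ZMod ℓ) : MonoidAlgebra (ZMod ℓ) G) • w q.2))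
    (k : ℕ) (hk : k ≠ 0) :
    ((Module.finrank (ZMod ℓ) (LinearMap.range (e.restrictScalars (ZMod ℓ))) : ℕ) :
      ZMod (ℓ ^ k)) =
      ((Fintype.card G * Module.finrank (ZMod ℓ) (LinearMap.range (augM e)) : ℕ) :
        ZMod (ℓ ^ k)) := by
  classical
  obtain ⟨e', he', hee⟩ := exists_lift_idem ℓ k hk e he
  have hpi := red_surjective ℓ k hk G s
  have hker := red_eq_zero ℓ k hk G s
  have hlin : ∀ (r : ZMod (ℓ ^ k)) (v : Fin s → MonoidAlgebra (ZMod (ℓ ^ k)) G),
      red (cst ℓ k hk) G s (r • v) = cst ℓ k hk r • red (cst ℓ k hk) G s v := by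
    intro r v
    funext i
    rw [red_apply, Pi.smul_apply, Pi.smul_apply, red_apply, TrF_map_smul]
  have hidem : e'.restrictScalars (ZMod (ℓ ^ k)) ∘ₗ e'.restrictScalars (ZMod (ℓ ^ k)) =
      e'.restrictScalars (ZMod (ℓ ^ k)) := by
    refine LinearMap.ext (fun v => ?_)
    exact LinearMap.congr_fun he' v
  have h1 := sum_trace e'
  rw [← Finset.add_sum_erase Finset.univ _ (Finset.mem_univ (1 : G))] at h1
  have h2 : ∑ g ∈ Finset.univ.erase (1 : G), LinearMap.trace (ZMod (ℓ ^ k))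
      (Fin s → MonoidAlgebra (ZMod (ℓ ^ k)) G)
      (lm (ZMod (ℓ ^ k)) G s g ∘ₗ e'.restrictScalars (ZMod (ℓ ^ k))) = 0 := by
    refine Finset.sum_eq_zero (fun g hg => ?_)
    obtain ⟨t, w, hw, hli, hsp⟩ := hfree g (Finset.ne_of_mem_erase hg)
    choose W hW using fun j => hpi (w j)
    have hred : ∀ (c : G) (j : Fin t), red (cst ℓ k hk) G s
        ((MonoidAlgebra.single c (1 : ZMod (ℓ ^ k)) : MonoidAlgebra (ZMod (ℓ ^ k)) G) • e' (W j)) =
        (MonoidAlgebra.single c (1 : ZMod ℓ) : MonoidAlgebra (ZMod ℓ) G) • w j := by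
      intro c j
      rw [TrF_red, MonoidAlgebra.mapRingHom_single, map_one, hee, hW, hw]
    refine trace_perm ℓ k hk (Fin s → MonoidAlgebra (ZMod (ℓ ^ k)) G)
      (Fin s → MonoidAlgebra (ZMod ℓ) G) (red (cst ℓ k hk) G s) hpi hker hlin
      (e'.restrictScalars (ZMod (ℓ ^ k))) hidem (e.restrictScalars (ZMod ℓ)) hee
      (lm (ZMod (ℓ ^ k)) G s g) ?_ (Subgroup.zpowers g × Fin t)
      (fun q => (MonoidAlgebra.single (q.1 : G) (1 : ZMod (ℓ ^ k)) :
        MonoidAlgebra (ZMod (ℓ ^ k)) G) • e' (W q.2)) ?_ ?_ ?_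
      (fun q => (⟨g, Subgroup.mem_zpowers g⟩ * q.1, q.2)) ?_ ?_
    · refine LinearMap.ext (fun v => ?_)
      show (MonoidAlgebra.single g (1 : ZMod (ℓ ^ k)) : MonoidAlgebra (ZMod (ℓ ^ k)) G) • e' v =
        e' ((MonoidAlgebra.single g (1 : ZMod (ℓ ^ k)) : MonoidAlgebra (ZMod (ℓ ^ k)) G) • v)
      rw [map_smul]
    · intro q
      show e' _ = _
      rw [map_smul]
      congr 1
      exact LinearMap.congr_fun he' (W q.2)
    · simp only [hred]
      exact hli
    · intro v hv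
      simp only [hred]
      exact hsp v hv
    · intro q hq
      have h3 : (⟨g, Subgroup.mem_zpowers g⟩ : Subgroup.zpowers g) * q.1 = q.1 :=
        congrArg Prod.fst hq
      have h4 : (⟨g, Subgroup.mem_zpowers g⟩ : Subgroup.zpowers g) = 1 := mul_eq_right.1 h3
      exact Finset.ne_of_mem_erase hg (congrArg Subtype.val h4)
    · intro q
      rw [lm_apply, smul_smul, MonoidAlgebra.single_mul_single, one_mul]
      rfl
  have h3 : lm (ZMod (ℓ ^ k)) G s 1 ∘ₗ e'.restrictScalars (ZMod (ℓ ^ k)) =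
      e'.restrictScalars (ZMod (ℓ ^ k)) := by
    refine LinearMap.ext (fun v => ?_)
    show (MonoidAlgebra.single 1 (1 : ZMod (ℓ ^ k)) : MonoidAlgebra (ZMod (ℓ ^ k)) G) • e' v = e' v
    rw [← MonoidAlgebra.one_def, one_smul]
  have h4 := trace_idem ℓ k hk (Fin s → MonoidAlgebra (ZMod (ℓ ^ k)) G)
      (Fin s → MonoidAlgebra (ZMod ℓ) G) (red (cst ℓ k hk) G s) hpi hker hlin
      (e'.restrictScalars (ZMod (ℓ ^ k))) hidem (e.restrictScalars (ZMod ℓ)) hee
  have h5 := trace_idem ℓ k hk (Fin s → ZMod (ℓ ^ k)) (Fin s → ZMod ℓ) (TrF_pi (cst ℓ k hk) s)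
    (by
      intro v
      choose u hu using fun i => ZMod.castHom_surjective (dvd_pow_self ℓ hk) (v i)
      exact ⟨u, funext hu⟩)
    (by
      intro v hv
      have h6 : ∀ i, ∃ u, v i = ℓ • u := by
        intro i
        have h7 : ZMod.castHom (dvd_pow_self ℓ hk) (ZMod ℓ) (v i) = 0 := congrFun hv i
        have : NeZero (ℓ ^ k) := ⟨pow_ne_zero k (Fact.out : ℓ.Prime).ne_zero⟩
        have h8 : (((v i).val : ℕ) : ZMod (ℓ ^ k)) = v i := ZMod.natCast_zmod_val (v i)
        rw [← h8, map_natCast, ZMod.natCast_eq_zero_iff] at h7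
        obtain ⟨m, hm⟩ := h7
        refine ⟨(m : ZMod (ℓ ^ k)), ?_⟩
        rw [← h8, hm, Nat.cast_mul, nsmul_eq_mul]
      choose u hu using h6
      exact ⟨u, funext hu⟩)
    (by
      intro r v
      funext i
      exact map_mul (cst ℓ k hk) r (v i))
    (augM e') (by rw [← TrF_augM_comp, he']) (augM e) (by
      intro v
      funext j
      show cst ℓ k hk (augM e' v j) = augM e (TrF_pi (cst ℓ k hk) s v) j
      rw [augM_apply, augM_apply, map_sum]
      refine Finset.sum_congr rfl (fun i _ => ?_)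
      rw [map_mul, TrF_aug]
      congr 2
      have h6 := congrFun (hee (Pi.single i 1)) j
      rw [red_apply] at h6
      have h7 : red (cst ℓ k hk) G s (Pi.single i 1) = Pi.single i 1 := by
        funext m
        rw [red_apply]
        by_cases hm : m = i
        · subst hm
          simp
        · simp [hm]
      rw [h6, h7])
  rw [h2, add_zero, h3, h4, h5] at h1
  rw [h1]
  push_cast
  rfl

theorem card_fixed (ℓ : ℕ) [Fact ℓ.Prime] {G : Type} [Group G] [Finite G] {s : ℕ}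
    (e : (Fin s → MonoidAlgebra (ZMod ℓ) G) →ₗ[MonoidAlgebra (ZMod ℓ) G]
      (Fin s → MonoidAlgebra (ZMod ℓ) G)) (he : e ∘ₗ e = e)
    (hfree : ∀ g : G, g ≠ 1 → ∃ (t : ℕ) (w : Fin t → (Fin s → MonoidAlgebra (ZMod ℓ) G)),
      (∀ j, e (w j) = w j) ∧
      (LinearIndependent (ZMod ℓ) fun q : Subgroup.zpowers g × Fin t =>
        (MonoidAlgebra.single (q.1 : G) (1 : ZMod ℓ) : MonoidAlgebra (ZMod ℓ) G) • w q.2) ∧
      ∀ v, e v = v → v ∈ Submodule.span (ZMod ℓ) (Set.range fun q : Subgroup.zpowers g × Fin t =>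
        (MonoidAlgebra.single (q.1 : G) (1 : ZMod ℓ) : MonoidAlgebra (ZMod ℓ) G) • w q.2)) :
    Nat.card {v : Fin s → MonoidAlgebra (ZMod ℓ) G // e v = v ∧
      ∀ g : G, (MonoidAlgebra.single g (1 : ZMod ℓ) : MonoidAlgebra (ZMod ℓ) G) • v = v} ^
        Nat.card G =
      Nat.card {v : Fin s → MonoidAlgebra (ZMod ℓ) G // e v = v} := by
  classical
  have : Fintype G := Fintype.ofFinite G
  have hmod := TrF_mod ℓ e he hfree
  have hℓ : 1 < ℓ := (Fact.out : ℓ.Prime).one_lt
  set R := Module.finrank (ZMod ℓ) (LinearMap.range (e.restrictScalars (ZMod ℓ))) with hR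
  set B := Fintype.card G * Module.finrank (ZMod ℓ) (LinearMap.range (augM e)) with hB
  have h1 : R = B := by
    have h2 := hmod (R + B + 1) (Nat.succ_ne_zero _)
    rw [ZMod.natCast_eq_natCast_iff] at h2
    have h3 : R + B + 1 < ℓ ^ (R + B + 1) := Nat.lt_pow_self hℓ
    exact Nat.ModEq.eq_of_lt_of_lt h2 (by omega) (by omega)
  have h4 : Nat.card {v : Fin s → MonoidAlgebra (ZMod ℓ) G // e v = v} = ℓ ^ R := by
    have h5 : Nat.card (LinearMap.range (e.restrictScalars (ZMod ℓ))) = ℓ ^ R := by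
      rw [Module.natCard_eq_pow_finrank (K := ZMod ℓ), Nat.card_zmod]
    rw [← h5]
    refine Nat.card_congr (Equiv.subtypeEquivRight (fun v => ?_))
    constructor
    · intro hv
      exact ⟨v, hv⟩
    · rintro ⟨u, hu⟩
      have h6 : e u = v := hu
      rw [← h6]
      exact LinearMap.congr_fun he u
  rw [card_fix ℓ e he, h4, ← pow_mul, h1, hB, mul_comm, Nat.card_eq_fintype_card]

end Pool.Agent.Lib.MP_0e6cae_nt.SW
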