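import Pool.Agent.Lib.MP_0e6cae_nt.Gor
import Pool.Agent.Lib.MP_0e6cae_nt.K0c

/-!
Restriction of modules over integral group rings along homomorphisms of groups; augmentation.
-/

open CategoryTheory

namespace Pool.Agent.Lib.MP_0e6cae_nt.SW

/-- The `ℤ[G]`-module `M` regarded as a `ℤ[C]`-module along the homomorphism `f : C → G`. -/
def ResF {C G : Type} [Group C] [Group G] (_ : C →* G) (M : Type) : Type := M

section

variable {C G : Type} [Group C] [Group G]

instance ResF.grp (f : C →* G) (M : Type) [AddCommGroup M] : AddCommGroup (ResF f M) :=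
  (inferInstance : AddCommGroup M)

noncomputable instance ResF.mod (f : C →* G) (M : Type) [AddCommGroup M]
    [Module (MonoidAlgebra ℤ G) M] : Module (MonoidAlgebra ℤ C) (ResF f M) :=
  Module.compHom M (MonoidAlgebra.mapDomainRingHom ℤ f)

/-- The identity map `M → M|_C`. -/
def ResF.of (f : C →* G) (M : Type) [AddCommGroup M] : M ≃+ ResF f M := AddEquiv.refl M

theorem ResF.smul_of (f : C →* G) (M : Type) [AddCommGroup M] [Module (MonoidAlgebra ℤ G) M]
    (r : MonoidAlgebra ℤ C) (y : M) :
    r • ResF.of f M y = ResF.of f M (MonoidAlgebra.mapDomainRingHom ℤ f r • y) := rfl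

theorem ResF.single_smul (f : C →* G) (M : Type) [AddCommGroup M] [Module (MonoidAlgebra ℤ G) M]
    (c : C) (n : ℤ) (y : M) : (MonoidAlgebra.single c n : MonoidAlgebra ℤ C) • ResF.of f M y =
      ResF.of f M ((MonoidAlgebra.single (f c) n : MonoidAlgebra ℤ G) • y) := by
  rw [ResF.smul_of]
  congr 2
  simp

/-- The restriction of a `ℤ[G]`-linear map. -/
noncomputable def ResF.map (f : C →* G) {M M' : Type} [AddCommGroup M] [Module (MonoidAlgebra ℤ G) M]
    [AddCommGroup M'] [Module (MonoidAlgebra ℤ G) M'] (φ : M →ₗ[MonoidAlgebra ℤ G] M') :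
    ResF f M →ₗ[MonoidAlgebra ℤ C] ResF f M' where
  toFun := fun y => ResF.of f M' (φ ((ResF.of f M).symm y))
  map_add' := fun _ _ => map_add φ _ _
  map_smul' := fun r _ => LinearMap.map_smul φ (MonoidAlgebra.mapDomainRingHom ℤ f r) _

theorem ResF.map_of (f : C →* G) {M M' : Type} [AddCommGroup M] [Module (MonoidAlgebra ℤ G) M]
    [AddCommGroup M'] [Module (MonoidAlgebra ℤ G) M'] (φ : M →ₗ[MonoidAlgebra ℤ G] M') (y : M) :
    ResF.map f φ (ResF.of f M y) = ResF.of f M' (φ y) := rfl

end

/-- The augmentation `R[G] → R`. -/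
noncomputable def aug (R : Type) [CommRing R] (G : Type) [Group G] : MonoidAlgebra R G →ₐ[R] R :=
  MonoidAlgebra.lift R R G 1

theorem aug_single (R : Type) [CommRing R] (G : Type) [Group G] (g : G) (r : R) :
    aug R G (MonoidAlgebra.single g r) = r := by
  simp [aug]

/-- The map `(R[G])^s → (R'[G])^s` given by a homomorphism `R → R'` on the coefficients. -/
noncomputable def red {R R' : Type} [CommRing R] [CommRing R'] (q : R →+* R') (G : Type) [Group G]
    (s : ℕ) : (Fin s → MonoidAlgebra R G) →+ (Fin s → MonoidAlgebra R' G) :=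
  { toFun := fun v i => MonoidAlgebra.mapRingHom G q (v i)
    map_zero' := by funext i; simp
    map_add' := fun v w => by funext i; simp }

theorem red_apply {R R' : Type} [CommRing R] [CommRing R'] (q : R →+* R') (G : Type) [Group G]
    (s : ℕ) (v : Fin s → MonoidAlgebra R G) (i : Fin s) :
    red q G s v i = MonoidAlgebra.mapRingHom G q (v i) := rfl

/-- Left multiplication by `g` on `R[G]^s`. -/
noncomputable def lm (R : Type) [CommRing R] (G : Type) [Group G] (s : ℕ) (g : G) :
    (Fin s → MonoidAlgebra R G) →ₗ[R] (Fin s → MonoidAlgebra R G) where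
  toFun := fun v => (MonoidAlgebra.single g (1 : R) : MonoidAlgebra R G) • v
  map_add' := fun v w => smul_add _ v w
  map_smul' := fun r v => smul_comm _ r v

theorem lm_apply (R : Type) [CommRing R] (G : Type) [Group G] (s : ℕ) (g : G)
    (v : Fin s → MonoidAlgebra R G) :
    lm R G s g v = (MonoidAlgebra.single g (1 : R) : MonoidAlgebra R G) • v := rfl

/-- The endomorphism of `R^s` induced by an endomorphism of `R[G]^s` through the augmentation. -/
noncomputable def augM {R : Type} [CommRing R] {G : Type} [Group G] {s : ℕ}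
    (a : (Fin s → MonoidAlgebra R G) →ₗ[MonoidAlgebra R G] (Fin s → MonoidAlgebra R G)) :
    (Fin s → R) →ₗ[R] (Fin s → R) where
  toFun := fun l j => ∑ i, l i * aug R G (a (Pi.single i 1) j)
  map_add' := fun l l' => by
    funext j
    simp [add_mul, Finset.sum_add_distrib]
  map_smul' := fun r l => by
    funext j
    simp [mul_assoc, Finset.mul_sum]

theorem augM_apply {R : Type} [CommRing R] {G : Type} [Group G] {s : ℕ}
    (a : (Fin s → MonoidAlgebra R G) →ₗ[MonoidAlgebra R G] (Fin s → MonoidAlgebra R G))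
    (l : Fin s → R) (j : Fin s) : augM a l j = ∑ i, l i * aug R G (a (Pi.single i 1) j) := rfl

/-- The action of `g` on the additive maps `P → M`: `(g f)(x) = g f(g⁻¹ x)`. -/
noncomputable def act {G : Type} [Group G] (P M : Type) [AddCommGroup P]
    [Module (MonoidAlgebra ℤ G) P] [AddCommGroup M] [Module (MonoidAlgebra ℤ G) M] (g : G) :
    (P →+ M) →+ (P →+ M) where
  toFun := fun f =>
    { toFun := fun x => (MonoidAlgebra.single g (1 : ℤ) : MonoidAlgebra ℤ G) •
        f ((MonoidAlgebra.single g⁻¹ (1 : ℤ) : MonoidAlgebra ℤ G) • x)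
      map_zero' := by simp
      map_add' := fun x y => by simp }
  map_zero' := by ext x; simp
  map_add' := fun f f' => by ext x; simp

theorem act_apply {G : Type} [Group G] (P M : Type) [AddCommGroup P]
    [Module (MonoidAlgebra ℤ G) P] [AddCommGroup M] [Module (MonoidAlgebra ℤ G) M] (g : G)
    (f : P →+ M) (x : P) : act P M g f x = (MonoidAlgebra.single g (1 : ℤ) : MonoidAlgebra ℤ G) •
        f ((MonoidAlgebra.single g⁻¹ (1 : ℤ) : MonoidAlgebra ℤ G) • x) := rfl

end Pool.Agent.Lib.MP_0e6cae_nt.SW
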