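import Pool.Agent.Lib.MP_0e6cae_nt.SW.Base

/-!
`Hom_ℤ(P, M)` is the image of an idempotent endomorphism of `𝔽_ℓ[G]^s`.
-/

namespace Pool.Agent.Lib.MP_0e6cae_nt.SW

theorem HomA_coord0 (ℓ : ℕ) [Fact ℓ.Prime] (M : Type) [AddCommGroup M] [Finite M]
    [Module (ZMod ℓ) M] : ∃ n : ℕ, Nonempty (M ≃+ (Fin n → ZMod ℓ)) := by
  have i2 : Module.Finite (ZMod ℓ) M := Module.Finite.of_finite
  exact ⟨Module.finrank (ZMod ℓ) M, ⟨(Module.finBasis (ZMod ℓ) M).equivFun.toAddEquiv⟩⟩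

/-- Coordinates of an `𝔽_ℓ`-vector space. -/
theorem HomA_coord (ℓ : ℕ) [Fact ℓ.Prime] (M : Type) [AddCommGroup M] [Finite M]
    (hM : ∀ y : M, ℓ • y = 0) : ∃ n : ℕ, Nonempty (M ≃+ (Fin n → ZMod ℓ)) := by
  let i1 : Module (ZMod ℓ) M := AddCommGroup.zmodModule hM
  exact HomA_coord0 ℓ M

/-- The element of the group algebra with given coefficients. -/
noncomputable def HomA_mk {R G : Type} [Semiring R] [Finite G] (φ : G → R) : MonoidAlgebra R G :=
  MonoidAlgebra.ofCoeff (Finsupp.equivFunOnFinite.symm φ)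

theorem HomA_mk_coeff {R G : Type} [Semiring R] [Finite G] (φ : G → R) (g : G) :
    (HomA_mk φ).coeff g = φ g := rfl

theorem HomA_single_mul {R G : Type} [Semiring R] [Group G] (h g : G) (x : MonoidAlgebra R G) :
    ((MonoidAlgebra.single h (1 : R) : MonoidAlgebra R G) * x).coeff g = x.coeff (h⁻¹ * g) := by
  rw [MonoidAlgebra.coeff_single_mul_apply, one_mul]

theorem HomA_smul_pi {G : Type} [Group G] {k : ℕ} (h g : G) (i : Fin k) :
    (MonoidAlgebra.single h (1 : ℤ) : MonoidAlgebra ℤ G) •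
      (Pi.single i (MonoidAlgebra.single g (1 : ℤ)) : Fin k → MonoidAlgebra ℤ G) =
      Pi.single i (MonoidAlgebra.single (h * g) (1 : ℤ)) := by
  rw [← Pi.single_smul, smul_eq_mul, MonoidAlgebra.single_mul_single, one_mul]

theorem HomA_smul_smul {G : Type} [Group G] {M : Type} [AddCommGroup M]
    [Module (MonoidAlgebra ℤ G) M] (h g : G) (y : M) :
    (MonoidAlgebra.single h (1 : ℤ) : MonoidAlgebra ℤ G) •
      (MonoidAlgebra.single g (1 : ℤ) : MonoidAlgebra ℤ G) • y =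
      (MonoidAlgebra.single (h * g) (1 : ℤ) : MonoidAlgebra ℤ G) • y := by
  rw [smul_smul, MonoidAlgebra.single_mul_single, one_mul]

theorem HomA_one_smul {G : Type} [Group G] {M : Type} [AddCommGroup M]
    [Module (MonoidAlgebra ℤ G) M] (y : M) :
    (MonoidAlgebra.single 1 (1 : ℤ) : MonoidAlgebra ℤ G) • y = y := by
  rw [← MonoidAlgebra.one_def, one_smul]

/-- An additive map on `ℤ[G]^k` is determined by its values at the basis. -/
theorem HomA_ext {G : Type} [Group G] {k : ℕ} {M : Type} [AddCommGroup M]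
    {f f' : (Fin k → MonoidAlgebra ℤ G) →+ M}
    (h : ∀ (i : Fin k) (g : G), f (Pi.single i (MonoidAlgebra.single g (1 : ℤ))) =
      f' (Pi.single i (MonoidAlgebra.single g (1 : ℤ)))) : f = f' := by
  refine AddMonoidHom.functions_ext _ _ _ fun i x => ?_
  have h1 : f.comp (AddMonoidHom.single (fun _ : Fin k => MonoidAlgebra ℤ G) i) =
      f'.comp (AddMonoidHom.single (fun _ : Fin k => MonoidAlgebra ℤ G) i) := by
    refine MonoidAlgebra.addMonoidHom_ext fun g n => ?_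
    have h2 : (MonoidAlgebra.single g n : MonoidAlgebra ℤ G) =
        n • MonoidAlgebra.single g (1 : ℤ) := by
      rw [MonoidAlgebra.smul_single, smul_eq_mul, mul_one]
    rw [h2, map_zsmul, map_zsmul]
    congr 1
    exact h i g
  exact DFunLike.congr_fun h1 x

/-- The coordinates of an additive map. -/
noncomputable def HomA_th {ℓ : ℕ} {G : Type} [Group G] [Finite G] (k n : ℕ) {M : Type}
    [AddCommGroup M] [Module (MonoidAlgebra ℤ G) M] (c : M ≃+ (Fin n → ZMod ℓ)) :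
    ((Fin k → MonoidAlgebra ℤ G) →+ M) →+ (Fin (k * n) → MonoidAlgebra (ZMod ℓ) G) where
  toFun := fun f t => HomA_mk fun g => c ((MonoidAlgebra.single g⁻¹ (1 : ℤ) : MonoidAlgebra ℤ G) •
    f (Pi.single (finProdFinEquiv.symm t).1 (MonoidAlgebra.single g (1 : ℤ))))
      (finProdFinEquiv.symm t).2
  map_zero' := by
    funext t
    refine MonoidAlgebra.ext (Finsupp.ext fun g => ?_)
    rw [HomA_mk_coeff]
    simp
  map_add' := fun f f' => by
    funext t
    refine MonoidAlgebra.ext (Finsupp.ext fun g => ?_)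
    rw [HomA_mk_coeff, Pi.add_apply, MonoidAlgebra.coeff_add, Finsupp.add_apply, HomA_mk_coeff,
      HomA_mk_coeff, AddMonoidHom.add_apply, smul_add, map_add, Pi.add_apply]

theorem HomA_th_coeff {ℓ : ℕ} {G : Type} [Group G] [Finite G] (k n : ℕ) {M : Type}
    [AddCommGroup M] [Module (MonoidAlgebra ℤ G) M] (c : M ≃+ (Fin n → ZMod ℓ))
    (f : (Fin k → MonoidAlgebra ℤ G) →+ M) (t : Fin (k * n)) (g : G) :
    (HomA_th k n c f t).coeff g = c ((MonoidAlgebra.single g⁻¹ (1 : ℤ) : MonoidAlgebra ℤ G) •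
      f (Pi.single (finProdFinEquiv.symm t).1 (MonoidAlgebra.single g (1 : ℤ))))
        (finProdFinEquiv.symm t).2 := rfl

theorem HomA_th_inj {ℓ : ℕ} {G : Type} [Group G] [Finite G] (k n : ℕ) {M : Type}
    [AddCommGroup M] [Module (MonoidAlgebra ℤ G) M] (c : M ≃+ (Fin n → ZMod ℓ)) :
    Function.Injective (HomA_th (G := G) k n c) := by
  intro f f' h
  refine HomA_ext fun i g => ?_
  have h1 : (MonoidAlgebra.single g⁻¹ (1 : ℤ) : MonoidAlgebra ℤ G) •
      f (Pi.single i (MonoidAlgebra.single g (1 : ℤ))) =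
      (MonoidAlgebra.single g⁻¹ (1 : ℤ) : MonoidAlgebra ℤ G) •
      f' (Pi.single i (MonoidAlgebra.single g (1 : ℤ))) := by
    apply c.injective
    funext j
    have h2 := congrArg (fun v => (v (finProdFinEquiv (i, j))).coeff g) h
    simp only [HomA_th_coeff, Equiv.symm_apply_apply] at h2
    exact h2
  have h3 := congrArg (fun y => (MonoidAlgebra.single g (1 : ℤ) : MonoidAlgebra ℤ G) • y) h1
  simp only [HomA_smul_smul, mul_inv_cancel, HomA_one_smul] at h3
  exact h3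

/-- The additive map with given values. -/
noncomputable def HomA_inv {G : Type} [Group G] [Fintype G] (k : ℕ) {M : Type}
    [AddCommGroup M] (u : Fin k → G → M) : (Fin k → MonoidAlgebra ℤ G) →+ M where
  toFun := fun x => ∑ i, ∑ g, (x i).coeff g • u i g
  map_zero' := by simp
  map_add' := fun x y => by
    simp [add_smul, Finset.sum_add_distrib]

theorem HomA_inv_single {G : Type} [Group G] [Fintype G] (k : ℕ) {M : Type}
    [AddCommGroup M] (u : Fin k → G → M) (i : Fin k) (g : G) :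
    HomA_inv k u (Pi.single i (MonoidAlgebra.single g (1 : ℤ))) = u i g := by
  show ∑ i', ∑ g', ((Pi.single i (MonoidAlgebra.single g (1 : ℤ)) :
    Fin k → MonoidAlgebra ℤ G) i').coeff g' • u i' g' = _
  rw [Finset.sum_eq_single i, Finset.sum_eq_single g]
  · rw [Pi.single_eq_same, MonoidAlgebra.coeff_single, Finsupp.single_eq_same, one_smul]
  · intro g' _ hg'
    rw [Pi.single_eq_same, MonoidAlgebra.coeff_single, Finsupp.single_eq_of_ne hg', zero_smul]
  · intro h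
    exact absurd (Finset.mem_univ _) h
  · intro i' _ hi'
    refine Finset.sum_eq_zero fun g' _ => ?_
    rw [Pi.single_eq_of_ne hi', MonoidAlgebra.coeff_zero, Finsupp.zero_apply, zero_smul]
  · intro h
    exact absurd (Finset.mem_univ _) h

theorem HomA_th_surj {ℓ : ℕ} {G : Type} [Group G] [Finite G] (k n : ℕ) {M : Type}
    [AddCommGroup M] [Module (MonoidAlgebra ℤ G) M] (c : M ≃+ (Fin n → ZMod ℓ)) :
    Function.Surjective (HomA_th (G := G) k n c) := by
  intro v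
  let _ := Fintype.ofFinite G
  refine ⟨HomA_inv k fun i g => (MonoidAlgebra.single g (1 : ℤ) : MonoidAlgebra ℤ G) •
    c.symm (fun j => (v (finProdFinEquiv (i, j))).coeff g), ?_⟩
  funext t
  refine MonoidAlgebra.ext (Finsupp.ext fun g => ?_)
  rw [HomA_th_coeff, HomA_inv_single, HomA_smul_smul, inv_mul_cancel, HomA_one_smul,
    AddEquiv.apply_symm_apply, Prod.mk.eta, Equiv.apply_symm_apply]

theorem HomA_th_act {ℓ : ℕ} {G : Type} [Group G] [Finite G] (k n : ℕ) {M : Type}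
    [AddCommGroup M] [Module (MonoidAlgebra ℤ G) M] (c : M ≃+ (Fin n → ZMod ℓ)) (h : G)
    (f : (Fin k → MonoidAlgebra ℤ G) →+ M) :
    HomA_th k n c (act (Fin k → MonoidAlgebra ℤ G) M h f) =
      (MonoidAlgebra.single h (1 : ZMod ℓ) : MonoidAlgebra (ZMod ℓ) G) • HomA_th k n c f := by
  funext t
  refine MonoidAlgebra.ext (Finsupp.ext fun g => ?_)
  rw [HomA_th_coeff, act_apply, HomA_smul_pi, HomA_smul_smul, Pi.smul_apply, smul_eq_mul,
    HomA_single_mul, HomA_th_coeff, mul_inv_rev, inv_inv]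

/-- `Hom_ℤ(ℤ[G]^k, M)` is free over `𝔽_ℓ[G]`.
(`f ↦ v`, `v (i, j) = ∑_g u_j(g⁻¹ f(g e_i)) g`, where `u_j` are the coordinates of `M` over
`𝔽_ℓ`; with `k * dim M` coordinates; bijective and `act h f ↦ h v`.) -/
theorem exists_hom_free (ℓ : ℕ) [Fact ℓ.Prime] {G : Type} [Group G] [Finite G] (k : ℕ) (M : Type)
    [AddCommGroup M] [Module (MonoidAlgebra ℤ G) M] [Finite M] (hM : ∀ y : M, ℓ • y = 0) :
    ∃ (s : ℕ) (Θ : ((Fin k → MonoidAlgebra ℤ G) →+ M) ≃+ (Fin s → MonoidAlgebra (ZMod ℓ) G)),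
      ∀ (g : G) (f : (Fin k → MonoidAlgebra ℤ G) →+ M),
        Θ (act (Fin k → MonoidAlgebra ℤ G) M g f) =
          (MonoidAlgebra.single g (1 : ZMod ℓ) : MonoidAlgebra (ZMod ℓ) G) • Θ f := by
  obtain ⟨n, ⟨c⟩⟩ := HomA_coord ℓ M hM
  exact ⟨k * n, AddEquiv.ofBijective (HomA_th k n c) ⟨HomA_th_inj k n c, HomA_th_surj k n c⟩,
    fun g f => HomA_th_act k n c g f⟩

/-- An additive map which commutes with the elements of the group is linear over `𝔽_ℓ[G]`. -/
theorem HomA_linear (ℓ : ℕ) {G : Type} [Group G] {V W : Type} [AddCommGroup V]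
    [Module (MonoidAlgebra (ZMod ℓ) G) V] [AddCommGroup W] [Module (MonoidAlgebra (ZMod ℓ) G) W]
    [NeZero ℓ] (e : V →+ W)
    (h : ∀ (g : G) (v : V), e ((MonoidAlgebra.single g (1 : ZMod ℓ) :
      MonoidAlgebra (ZMod ℓ) G) • v) = (MonoidAlgebra.single g (1 : ZMod ℓ) :
      MonoidAlgebra (ZMod ℓ) G) • e v) (r : MonoidAlgebra (ZMod ℓ) G) (v : V) :
    e (r • v) = r • e v := by
  induction r using MonoidAlgebra.induction_linear with
  | zero => rw [zero_smul, zero_smul, map_zero]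
  | add r r' h1 h2 => rw [add_smul, add_smul, map_add, h1, h2]
  | single g a =>
    have h1 : (MonoidAlgebra.single g a : MonoidAlgebra (ZMod ℓ) G) =
        a.val • MonoidAlgebra.single g (1 : ZMod ℓ) := by
      rw [MonoidAlgebra.smul_single, nsmul_eq_mul, mul_one, ZMod.natCast_val, ZMod.cast_id]
    rw [h1, smul_assoc, smul_assoc, map_nsmul, h]

/-- (`π : ℤ[G]^k → P`, `σ : P → ℤ[G]^k`, `π σ = 1`; `Ψ f = Θ (f ∘ π)`,
`e v = Θ (Θ⁻¹ v ∘ σ ∘ π)`.) -/
theorem exists_idem (ℓ : ℕ) [Fact ℓ.Prime] {G : Type} [Group G] [Finite G] (P M : Type)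
    [AddCommGroup P] [Module (MonoidAlgebra ℤ G) P] [Module.Finite (MonoidAlgebra ℤ G) P]
    [Module.Projective (MonoidAlgebra ℤ G) P]
    [AddCommGroup M] [Module (MonoidAlgebra ℤ G) M] [Finite M] (hM : ∀ y : M, ℓ • y = 0) :
    ∃ (s : ℕ) (e : (Fin s → MonoidAlgebra (ZMod ℓ) G) →ₗ[MonoidAlgebra (ZMod ℓ) G]
      (Fin s → MonoidAlgebra (ZMod ℓ) G)) (Ψ : (P →+ M) →+ (Fin s → MonoidAlgebra (ZMod ℓ) G)),
      e ∘ₗ e = e ∧ Function.Injective Ψ ∧ (∀ f, e (Ψ f) = Ψ f) ∧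
      (∀ v, e v = v → ∃ f, Ψ f = v) ∧
      ∀ (g : G) (f : P →+ M), Ψ (act P M g f) =
        (MonoidAlgebra.single g (1 : ZMod ℓ) : MonoidAlgebra (ZMod ℓ) G) • Ψ f := by
  obtain ⟨k, π, hπ⟩ := Module.Finite.exists_fin' (MonoidAlgebra ℤ G) P
  obtain ⟨σ, hσ⟩ := Module.projective_lifting_property π LinearMap.id hπ
  have hσ' : ∀ x, π (σ x) = x := fun x => LinearMap.congr_fun hσ x
  obtain ⟨s, Θ, hΘ⟩ := exists_hom_free ℓ (G := G) k M hM
  let ρ : (Fin k → MonoidAlgebra ℤ G) →ₗ[MonoidAlgebra ℤ G] (Fin k → MonoidAlgebra ℤ G) := σ ∘ₗ π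
  have hact : ∀ (g : G) (f : (Fin k → MonoidAlgebra ℤ G) →+ M),
      (act (Fin k → MonoidAlgebra ℤ G) M g f).comp ρ.toAddMonoidHom =
        act (Fin k → MonoidAlgebra ℤ G) M g (f.comp ρ.toAddMonoidHom) := by
    intro g f
    refine AddMonoidHom.ext fun x => ?_
    show (MonoidAlgebra.single g (1 : ℤ) : MonoidAlgebra ℤ G) •
        f ((MonoidAlgebra.single g⁻¹ (1 : ℤ) : MonoidAlgebra ℤ G) • ρ x) =
      (MonoidAlgebra.single g (1 : ℤ) : MonoidAlgebra ℤ G) •
        f (ρ ((MonoidAlgebra.single g⁻¹ (1 : ℤ) : MonoidAlgebra ℤ G) • x))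
    rw [LinearMap.map_smul ρ]
  have hinv : ∀ (g : G) (v : Fin s → MonoidAlgebra (ZMod ℓ) G),
      Θ.symm ((MonoidAlgebra.single g (1 : ZMod ℓ) : MonoidAlgebra (ZMod ℓ) G) • v) =
        act (Fin k → MonoidAlgebra ℤ G) M g (Θ.symm v) := by
    intro g v
    apply Θ.injective
    rw [hΘ, AddEquiv.apply_symm_apply, AddEquiv.apply_symm_apply]
  let e0 : (Fin s → MonoidAlgebra (ZMod ℓ) G) →+ (Fin s → MonoidAlgebra (ZMod ℓ) G) :=
    { toFun := fun v => Θ ((Θ.symm v).comp ρ.toAddMonoidHom)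
      map_zero' := by
        rw [map_zero, AddMonoidHom.zero_comp, map_zero]
      map_add' := fun v w => by
        rw [map_add, AddMonoidHom.add_comp, map_add] }
  have he0 : ∀ v, e0 v = Θ ((Θ.symm v).comp ρ.toAddMonoidHom) := fun _ => rfl
  have he0g : ∀ (g : G) (v : Fin s → MonoidAlgebra (ZMod ℓ) G),
      e0 ((MonoidAlgebra.single g (1 : ZMod ℓ) : MonoidAlgebra (ZMod ℓ) G) • v) =
        (MonoidAlgebra.single g (1 : ZMod ℓ) : MonoidAlgebra (ZMod ℓ) G) • e0 v := by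
    intro g v
    rw [he0, he0, hinv, hact, hΘ]
  have _ : NeZero ℓ := ⟨(Fact.out : ℓ.Prime).ne_zero⟩
  let Ψ : (P →+ M) →+ (Fin s → MonoidAlgebra (ZMod ℓ) G) :=
    { toFun := fun f => Θ (f.comp π.toAddMonoidHom)
      map_zero' := by
        rw [AddMonoidHom.zero_comp, map_zero]
      map_add' := fun f f' => by
        rw [AddMonoidHom.add_comp, map_add] }
  have hΨ : ∀ f, Ψ f = Θ (f.comp π.toAddMonoidHom) := fun _ => rfl
  have hρρ : ∀ f : (Fin k → MonoidAlgebra ℤ G) →+ M,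
      (f.comp ρ.toAddMonoidHom).comp ρ.toAddMonoidHom = f.comp ρ.toAddMonoidHom := by
    intro f
    refine AddMonoidHom.ext fun x => ?_
    show f (σ (π (σ (π x)))) = f (σ (π x))
    rw [hσ']
  have hπρ : ∀ f : P →+ M,
      (f.comp π.toAddMonoidHom).comp ρ.toAddMonoidHom = f.comp π.toAddMonoidHom := by
    intro f
    refine AddMonoidHom.ext fun x => ?_
    show f (π (σ (π x))) = f (π x)
    rw [hσ']
  refine ⟨s, { toFun := e0, map_add' := e0.map_add, map_smul' := fun r v => ?_ }, Ψ,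
    ?_, ?_, ?_, ?_, ?_⟩
  · exact HomA_linear ℓ e0 he0g r v
  · refine LinearMap.ext fun v => ?_
    show e0 (e0 v) = e0 v
    rw [he0, he0, AddEquiv.symm_apply_apply, hρρ]
  · intro f f' h
    have h1 : f.comp π.toAddMonoidHom = f'.comp π.toAddMonoidHom := Θ.injective h
    ext x
    obtain ⟨y, rfl⟩ := hπ x
    exact DFunLike.congr_fun h1 y
  · intro f
    show e0 (Ψ f) = Ψ f
    rw [he0, hΨ, AddEquiv.symm_apply_apply, hπρ]
  · intro v hv
    refine ⟨(Θ.symm v).comp σ.toAddMonoidHom, ?_⟩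
    have h1 : e0 v = v := hv
    rw [he0] at h1
    rw [hΨ]
    exact h1
  · intro g f
    rw [hΨ, hΨ, ← hΘ]
    congr 1
    refine AddMonoidHom.ext fun x => ?_
    show (MonoidAlgebra.single g (1 : ℤ) : MonoidAlgebra ℤ G) •
        f ((MonoidAlgebra.single g⁻¹ (1 : ℤ) : MonoidAlgebra ℤ G) • π x) =
      (MonoidAlgebra.single g (1 : ℤ) : MonoidAlgebra ℤ G) •
        f (π ((MonoidAlgebra.single g⁻¹ (1 : ℤ) : MonoidAlgebra ℤ G) • x))
    rw [LinearMap.map_smul π]

end Pool.Agent.Lib.MP_0e6cae_nt.SW
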