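import Pool.Agent.Lib.MP_0e6cae_nt.SW.Idem

/-!
A finitely generated projective module over `ℤ[C]`, `C` a finite commutative group, is locally free.
-/

namespace Pool.Agent.Lib.MP_0e6cae_nt.SW

open TensorProduct

section rankC

variable {R : Type} [CommRing R]

/-- Connected spectrum: the rank is constant. -/
theorem rankC_const (hid : ∀ e : R, e * e = e → e = 0 ∨ e = 1) (P : Type) [AddCommGroup P]
    [Module R P] [Module.FinitePresentation R P] [Module.Flat R P] (x y : PrimeSpectrum R) :
    Module.rankAtStalk P x = Module.rankAtStalk (R := R) P y := by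
  have hlc := Module.isLocallyConstant_rankAtStalk (R := R) (M := P)
  have hcl : IsClopen {z | Module.rankAtStalk P z = Module.rankAtStalk (R := R) P y} :=
    hlc.isClopen_fiber _
  obtain ⟨e, he, hs⟩ := PrimeSpectrum.isClopen_iff.1 hcl
  have hy : y ∈ (PrimeSpectrum.basicOpen e : Set (PrimeSpectrum R)) := by
    rw [← hs]
    exact rfl
  rcases hid e he with h0 | h1
  · rw [h0] at hy
    simp at hy
  · have hx : x ∈ (PrimeSpectrum.basicOpen e : Set (PrimeSpectrum R)) := by
      rw [h1]
      simp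
    rw [← hs] at hx
    exact hx

theorem rankC_finite [Module.Finite ℤ R] (P : Type) [AddCommGroup P] [Module R P]
    [Module.Finite R P] : Module.Finite ℤ P := Module.Finite.trans R P

theorem rankC_free [Module.Free ℤ R] [Module.Finite ℤ R] (P : Type) [AddCommGroup P] [Module R P]
    [Module.Finite R P] [Module.Projective R P] : Module.Free ℤ P := by
  have := rankC_finite (R := R) P
  obtain ⟨s, hs⟩ := Module.projective_def.1 (inferInstance : Module.Projective R P)
  have hinj : Function.Injective s := hs.injective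
  have : Module.IsTorsionFree ℤ P :=
    Function.Injective.moduleIsTorsionFree s hinj (fun c x => map_zsmul s c x)
  exact Module.free_of_finite_type_torsion_free'

/-- The submodule of the multiples of `n`. -/
theorem rankC_mem (P : Type) [AddCommGroup P] [Module R P] (n : ℕ) (y : P) :
    y ∈ (Ideal.span {(n : R)} • ⊤ : Submodule R P) ↔ ∃ z : P, n • z = y := by
  rw [Submodule.ideal_span_singleton_smul, Submodule.mem_smul_pointwise_iff_exists]
  constructor
  · rintro ⟨z, -, hz⟩
    exact ⟨z, by rw [← hz, Nat.cast_smul_eq_nsmul]⟩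
  · rintro ⟨z, hz⟩
    exact ⟨z, Submodule.mem_top, by rw [← hz, Nat.cast_smul_eq_nsmul]⟩

theorem rankC_card (P : Type) [AddCommGroup P] [Module R P] [Module.Free ℤ P] [Module.Finite ℤ P]
    (n : ℕ) : Nat.card (P ⧸ (Ideal.span {(n : R)} • ⊤ : Submodule R P)) =
      n ^ Module.finrank ℤ P := by
  rw [← AddSubgroup.index_range_nsmul P n, ← Submodule.cardQuot_apply, Submodule.cardQuot]
  congr 1
  ext y
  rw [Submodule.mem_toAddSubgroup, rankC_mem]
  rfl

theorem rankC_cardR [Module.Free ℤ R] [Module.Finite ℤ R] (n : ℕ) :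
    Nat.card (R ⧸ Ideal.span {(n : R)}) = n ^ Module.finrank ℤ R := by
  rw [← rankC_card (R := R) R n]
  apply Nat.card_congr
  exact (Submodule.quotEquivOfEq _ _ (by simp)).toEquiv

theorem rankC_basis (hid : ∀ e : R, e * e = e → e = 0 ∨ e = 1) [Module.Free ℤ R]
    [Module.Finite ℤ R] (P : Type) [AddCommGroup P] [Module R P] [Module.Finite R P]
    [Module.Projective R P] (x0 : PrimeSpectrum R) {n : ℕ} (hn : n ≠ 0) :
    Nonempty (Module.Basis (Fin (Module.rankAtStalk (R := R) P x0)) (R ⧸ Ideal.span {(n : R)})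
      ((R ⧸ Ideal.span {(n : R)}) ⊗[R] P)) := by
  have hnoeth : IsNoetherianRing R :=
    isNoetherian_of_tower ℤ (isNoetherian_of_isNoetherianRing_of_finite ℤ R)
  have hfp : Module.FinitePresentation R P := Module.finitePresentation_of_finite R P
  have hfin : Finite (R ⧸ Ideal.span {(n : R)}) := by
    apply Nat.finite_of_card_ne_zero
    rw [rankC_cardR]
    exact pow_ne_zero _ hn
  apply Module.nonempty_basis_of_flat_of_finrank_eq
  intro Q
  let K := (R ⧸ Ideal.span {(n : R)}) ⧸ Q.1
  let : Field K := Ideal.Quotient.field Q.1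
  have p0 : PrimeSpectrum K := ⊥
  have h1 := Module.rankAtStalk_baseChange (R := R ⧸ Ideal.span {(n : R)})
    (M := (R ⧸ Ideal.span {(n : R)}) ⊗[R] P) (S := K) p0
  have h2 := Module.rankAtStalk_baseChange (R := R) (M := P) (S := R ⧸ Ideal.span {(n : R)})
    (p0.comap (algebraMap _ K))
  rw [h2, rankC_const hid P _ x0] at h1
  rw [← h1]
  have h3 := Module.rankAtStalk_eq_finrank_of_free (R := K)
    (M := K ⊗[R ⧸ Ideal.span {(n : R)}] ((R ⧸ Ideal.span {(n : R)}) ⊗[R] P))
  exact (congrFun h3 p0).symm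

theorem rankC_main (hid : ∀ e : R, e * e = e → e = 0 ∨ e = 1) [Nontrivial R] [Module.Free ℤ R]
    [Module.Finite ℤ R] (P : Type) [AddCommGroup P] [Module R P] [Module.Finite R P]
    [Module.Projective R P] {n : ℕ} (hn : 2 ≤ n) :
    ∃ (ρ : ℕ) (b : Fin ρ → P), ρ * Module.finrank ℤ R = Module.finrank ℤ P ∧
      ∀ y : P, ∃ (a : Fin ρ → R) (z : P), y = (∑ i, a i • b i) + n • z := by
  have hPf := rankC_finite (R := R) P
  have hPfr := rankC_free (R := R) P
  obtain ⟨x0⟩ := (inferInstance : Nonempty (PrimeSpectrum R))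
  obtain ⟨B⟩ := rankC_basis hid P x0 (n := n) (by omega)
  set ρ := Module.rankAtStalk (R := R) P x0
  let e := TensorProduct.quotTensorEquivQuotSMul P (Ideal.span {(n : R)})
  have hbex : ∀ i : Fin ρ, ∃ b : P, Submodule.Quotient.mk b = e (B i) := fun i =>
    Submodule.Quotient.mk_surjective _ _
  choose b hb using hbex
  refine ⟨ρ, b, ?_, ?_⟩
  · have h1 := rankC_card (R := R) P n
    rw [← Nat.card_congr e.toEquiv, Nat.card_congr B.equivFun.toEquiv, Nat.card_fun,
      Nat.card_fin, rankC_cardR, ← pow_mul] at h1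
    rw [mul_comm]
    exact Nat.pow_right_injective hn h1
  · intro y
    have haex : ∀ i : Fin ρ, ∃ a : R, Ideal.Quotient.mk (Ideal.span {(n : R)}) a =
        B.repr (e.symm (Submodule.Quotient.mk y)) i := fun i =>
      Ideal.Quotient.mk_surjective _
    choose a ha using haex
    have h1 : e.symm (Submodule.Quotient.mk y) = ∑ i, a i • B i := by
      rw [← B.sum_repr (e.symm (Submodule.Quotient.mk y))]
      refine Finset.sum_congr rfl fun i _ => ?_
      rw [← ha]
      rfl
    have h2 : (Submodule.Quotient.mk y : P ⧸ (Ideal.span {(n : R)} • ⊤ : Submodule R P)) =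
        Submodule.Quotient.mk (∑ i, a i • b i) := by
      rw [← e.apply_symm_apply (Submodule.Quotient.mk y), h1, map_sum, ← Submodule.mkQ_apply,
        map_sum]
      refine Finset.sum_congr rfl fun i _ => ?_
      rw [map_smul, ← hb i, map_smul, Submodule.mkQ_apply]
    rw [Submodule.Quotient.eq, rankC_mem] at h2
    obtain ⟨z, hz⟩ := h2
    exact ⟨a, z, by rw [hz]; abel⟩

end rankC

/-- (`Spec ℤ[C]` is connected by `idem_trivial`, so `P` has constant rank `ρ`; choose elements of
`P` which are a basis of `P/𝔪P` for all the finitely many maximal ideals `𝔪` containing `m`, by the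
Chinese remainder theorem; Nakayama.) -/
theorem exists_gen_comm (C : Type) [CommGroup C] [Finite C] (P : Type) [AddCommGroup P]
    [Module (MonoidAlgebra ℤ C) P] [Module.Finite (MonoidAlgebra ℤ C) P]
    [Module.Projective (MonoidAlgebra ℤ C) P] (m : ℕ) (hm : m ≠ 0) :
    ∃ (ρ : ℕ) (b : Fin ρ → P), ρ * Nat.card C = Module.finrank ℤ P ∧
      ∀ y : P, ∃ (a : Fin ρ → MonoidAlgebra ℤ C) (z : P), y = (∑ i, a i • b i) + m • z := by
  have hfr : Module.Free ℤ (MonoidAlgebra ℤ C) :=
    Module.Free.of_equiv (MonoidAlgebra.coeffLinearEquiv (R := ℤ) (S := ℤ) (M := C)).symm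
  have hfi : Module.Finite ℤ (MonoidAlgebra ℤ C) :=
    Module.Finite.equiv (MonoidAlgebra.coeffLinearEquiv (R := ℤ) (S := ℤ) (M := C)).symm
  have hrk : Module.finrank ℤ (MonoidAlgebra ℤ C) = Nat.card C := by
    have := Fintype.ofFinite C
    rw [(MonoidAlgebra.coeffLinearEquiv (R := ℤ) (S := ℤ) (M := C)).finrank_eq,
      Module.finrank_finsupp_self, Nat.card_eq_fintype_card]
  obtain ⟨ρ, b, h1, h2⟩ := rankC_main (idem_trivial C) P (n := 2 * m) (by omega)
  rw [hrk] at h1
  refine ⟨ρ, b, h1, fun y => ?_⟩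
  obtain ⟨a, z, hz⟩ := h2 y
  exact ⟨a, 2 • z, by rw [hz, smul_smul, mul_comm m 2]⟩

end Pool.Agent.Lib.MP_0e6cae_nt.SW
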