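import Pool.Agent.Lib.MP_0e6cae_nt.SW.Proj
import Pool.Agent.Lib.MP_0e6cae_nt.SW.RankC

/-!
`Hom_ℤ(P, M)` is free over every cyclic subgroup.
-/

namespace Pool.Agent.Lib.MP_0e6cae_nt.SW

/-- A finitely generated projective module over `ℤ[G]` is free over `ℤ`. -/
theorem homB_free {G : Type} [Group G] [Finite G] (P : Type)
    [AddCommGroup P] [Module (MonoidAlgebra ℤ G) P] [Module.Finite (MonoidAlgebra ℤ G) P]
    [Module.Projective (MonoidAlgebra ℤ G) P] : Module.Finite ℤ P ∧ Module.Free ℤ P := by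
  have := Fintype.ofFinite G
  have hPf : Module.Finite ℤ P := Module.Finite.trans (MonoidAlgebra ℤ G) P
  refine ⟨hPf, ?_⟩
  obtain ⟨k, π, hπ⟩ := Module.Finite.exists_fin' (MonoidAlgebra ℤ G) P
  obtain ⟨σ, hσ⟩ := Module.projective_lifting_property π
    (LinearMap.id : P →ₗ[MonoidAlgebra ℤ G] P) hπ
  have hσi : Function.Injective σ := by
    intro x y hxy
    have h1 := LinearMap.congr_fun hσ x
    have h2 := LinearMap.congr_fun hσ y
    rw [LinearMap.comp_apply, LinearMap.id_apply] at h1 h2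
    rw [← h1, hxy, h2]
  have hP : Module.IsTorsionFree ℤ P :=
    Module.isTorsionFree_iff_smul_eq_zero.2 fun n z hz => by
      have h1 : n • σ z = 0 := by
        rw [← map_zsmul, hz, map_zero]
      rcases smul_eq_zero.1 h1 with h2 | h2
      · exact Or.inl h2
      · right
        exact hσi (by rw [h2, map_zero])
  exact Module.free_of_finite_type_torsion_free'

/-- A generating family modulo `ℓ` with as many elements as the rank is independent
modulo `ℓ`. -/
theorem homB_indep (ℓ : ℕ) [Fact ℓ.Prime] {Q P : Type} [Fintype Q] [AddCommGroup P]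
    [Module.Finite ℤ P] [Module.Free ℤ P] (hcard : Module.finrank ℤ P = Fintype.card Q)
    (e : Q → P) (h1 : ∀ y : P, ∃ (n : Q → ℤ) (z : P), y = (∑ q, n q • e q) + ℓ • z)
    (n : Q → ℤ) (z : P) (hn : ∑ q, n q • e q = ℓ • z) (q : Q) : (ℓ : ℤ) ∣ n q := by
  classical
  let β : Module.Basis Q ℤ P :=
    (Module.finBasis ℤ P).reindex ((finCongr hcard).trans (Fintype.equivFin Q).symm)
  let T := Fintype.linearCombination (ZMod ℓ)
    (fun q : Q => fun r : Q => ((β.repr (e q) r : ℤ) : ZMod ℓ))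
  have hT : ∀ (m : Q → ℤ) (r : Q), T (fun q => (m q : ZMod ℓ)) r =
      ((β.repr (∑ q, m q • e q) r : ℤ) : ZMod ℓ) := by
    intro m r
    rw [Fintype.linearCombination_apply, Finset.sum_apply, map_sum, Finsupp.finsetSum_apply,
      Int.cast_sum]
    refine Finset.sum_congr rfl fun q _ => ?_
    rw [Pi.smul_apply, smul_eq_mul, map_smul, Finsupp.smul_apply, smul_eq_mul, Int.cast_mul]
  have hℓ : ∀ (z : P) (r : Q), ((β.repr (ℓ • z) r : ℤ) : ZMod ℓ) = 0 := by
    intro z r
    rw [map_nsmul, Finsupp.smul_apply, nsmul_eq_mul, Int.cast_mul, Int.cast_natCast,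
      ZMod.natCast_self, zero_mul]
  have hsurj : Function.Surjective T := by
    intro u
    obtain ⟨m, z', hy⟩ := h1 (∑ r, ((u r).val : ℤ) • β r)
    refine ⟨fun q => (m q : ZMod ℓ), funext fun r => ?_⟩
    rw [hT]
    have h2 : (∑ q, m q • e q) = (∑ r, ((u r).val : ℤ) • β r) - ℓ • z' := by
      rw [hy, add_sub_cancel_right]
    have h3 : β.repr (∑ r, ((u r).val : ℤ) • β r) r = ((u r).val : ℤ) := by
      rw [β.repr_sum_self]
    rw [h2, map_sub, Finsupp.sub_apply, Int.cast_sub, hℓ, sub_zero, h3, Int.cast_natCast,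
      ZMod.natCast_zmod_val]
  have hinj := LinearMap.injective_iff_surjective.2 hsurj
  have h4 : (fun q => (n q : ZMod ℓ)) = 0 := by
    apply hinj
    rw [map_zero]
    funext r
    rw [hT, hn, hℓ]
    rfl
  exact (ZMod.intCast_zmod_eq_zero_iff_dvd _ _).1 (congrFun h4 q)

/-- Additive maps with given values on a basis modulo `ℓ`. -/
theorem homB_ext (ℓ : ℕ) {Q P M : Type} [Fintype Q] [AddCommGroup P] [AddCommGroup M]
    (hM : ∀ y : M, ℓ • y = 0) (e : Q → P)
    (h1 : ∀ y : P, ∃ (n : Q → ℤ) (z : P), y = (∑ q, n q • e q) + ℓ • z)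
    (h2 : ∀ (n : Q → ℤ) (z : P), ∑ q, n q • e q = ℓ • z → ∀ q, (ℓ : ℤ) ∣ n q) (φ : Q → M) :
    ∃ f : P →+ M, ∀ q, f (e q) = φ q := by
  classical
  have key : ∀ (n n' : Q → ℤ) (z z' : P),
      (∑ q, n q • e q) + ℓ • z = (∑ q, n' q • e q) + ℓ • z' →
      ∑ q, n q • φ q = ∑ q, n' q • φ q := by
    intro n n' z z' h
    have h3 : ∑ q, (n q - n' q) • e q = ℓ • (z' - z) := by
      rw [Finset.sum_congr rfl fun q _ => sub_smul (n q) (n' q) (e q),
        Finset.sum_sub_distrib, smul_sub, sub_eq_sub_iff_add_eq_add, h, add_comm]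
    have h4 := h2 (fun q => n q - n' q) _ h3
    refine Finset.sum_congr rfl fun q _ => ?_
    obtain ⟨k, hk⟩ := h4 q
    rw [← sub_eq_zero, ← sub_smul, hk, mul_comm, mul_smul, natCast_zsmul, hM, smul_zero]
  choose n z hz using h1
  refine ⟨⟨⟨fun y => ∑ q, n y q • φ q, ?_⟩, ?_⟩, ?_⟩
  · rw [key (n 0) (fun _ => 0) (z 0) 0]
    · simp
    · rw [← hz 0]
      simp
  · intro x y
    show ∑ q, n (x + y) q • φ q = (∑ q, n x q • φ q) + ∑ q, n y q • φ q
    rw [key (n (x + y)) (fun q => n x q + n y q) (z (x + y)) (z x + z y)]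
    · rw [← Finset.sum_add_distrib]
      exact Finset.sum_congr rfl fun q _ => add_smul _ _ _
    · rw [← hz (x + y)]
      rw [Finset.sum_congr rfl fun q _ => add_smul (n x q) (n y q) (e q),
        Finset.sum_add_distrib, smul_add]
      conv_lhs => rw [hz x, hz y]
      abel
  · intro q
    show ∑ r, n (e q) r • φ r = φ q
    rw [key (n (e q)) (fun r => if r = q then 1 else 0) (z (e q)) 0]
    · simp
    · rw [← hz (e q)]
      simp

/-- Additive maps agreeing on a generating family modulo `ℓ` are equal. -/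
theorem homB_uniq (ℓ : ℕ) {Q P M : Type} [Fintype Q] [AddCommGroup P] [AddCommGroup M]
    (hM : ∀ y : M, ℓ • y = 0) (e : Q → P)
    (h1 : ∀ y : P, ∃ (n : Q → ℤ) (z : P), y = (∑ q, n q • e q) + ℓ • z)
    (f f' : P →+ M) (h : ∀ q, f (e q) = f' (e q)) : f = f' := by
  ext y
  obtain ⟨n, z, rfl⟩ := h1 y
  rw [map_add, map_add, map_sum, map_sum, map_nsmul, map_nsmul, hM, hM]
  congr 1
  refine Finset.sum_congr rfl fun q _ => ?_
  rw [map_zsmul, map_zsmul, h]

theorem homB_single {G : Type} [Group G] (P : Type) [AddCommGroup P]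
    [Module (MonoidAlgebra ℤ G) P] (g : G) (n : ℤ) (b : P) :
    (MonoidAlgebra.single g n : MonoidAlgebra ℤ G) • b =
      n • ((MonoidAlgebra.single g (1 : ℤ) : MonoidAlgebra ℤ G) • b) := by
  rw [← smul_assoc]
  congr 1
  rw [MonoidAlgebra.smul_single, smul_eq_mul, mul_one]

/-- A projective `ℤ[G]`-module has, modulo `m`, a basis of the form `c b_i`, `c ∈ ⟨g⟩`.
(`exists_gen_comm` for `ResF (Subgroup.zpowers g).subtype P`; the map
`(n, z) ↦ ∑ n(c, i) c b_i` from `(ℤ/ℓ)^(⟨g⟩ × Fin ρ)` to `P/ℓP` is surjective, so bijective, by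
counting.) -/
theorem exists_gen_cyclic (ℓ : ℕ) [Fact ℓ.Prime] {G : Type} [Group G] [Finite G] (P : Type)
    [AddCommGroup P] [Module (MonoidAlgebra ℤ G) P] [Module.Finite (MonoidAlgebra ℤ G) P]
    [Module.Projective (MonoidAlgebra ℤ G) P] (g : G) [Fintype (Subgroup.zpowers g)] :
    ∃ (ρ : ℕ) (b : Fin ρ → P),
      (∀ y : P, ∃ (n : Subgroup.zpowers g × Fin ρ → ℤ) (z : P),
        y = (∑ q, (MonoidAlgebra.single (q.1 : G) (n q) : MonoidAlgebra ℤ G) • b q.2) + ℓ • z) ∧
      ∀ (n : Subgroup.zpowers g × Fin ρ → ℤ) (z : P),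
        (∑ q, (MonoidAlgebra.single (q.1 : G) (n q) : MonoidAlgebra ℤ G) • b q.2) = ℓ • z →
          ∀ q, (ℓ : ℤ) ∣ n q := by
  classical
  have hℓ : ℓ ≠ 0 := (Fact.out : ℓ.Prime).ne_zero
  let C := Subgroup.zpowers g
  let _ : CommGroup C := { (inferInstance : Group C) with
    mul_comm := fun a b => Subtype.ext (by
      have := IsMulCommutative.is_comm (M := C)
      exact congrArg Subtype.val (this.comm a b)) }
  have hfin := ResF.finite C.subtype P
  have hproj := ResF.projective C.subtype C.subtype_injective P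
  obtain ⟨ρ, b, hρ, hb⟩ := exists_gen_comm C (ResF C.subtype P) ℓ hℓ
  obtain ⟨hPf, hPfr⟩ := homB_free (G := G) P
  have hb' : ∀ y : P, ∃ (n : C × Fin ρ → ℤ) (z : P), y = (∑ q, n q •
      ((MonoidAlgebra.single (q.1 : G) (1 : ℤ) : MonoidAlgebra ℤ G) •
        (ResF.of C.subtype P).symm (b q.2))) + ℓ • z := by
    intro y
    obtain ⟨a, z, hy⟩ := hb (ResF.of C.subtype P y)
    refine ⟨fun q => (a q.2).coeff q.1, (ResF.of C.subtype P).symm z, ?_⟩
    apply (ResF.of C.subtype P).injective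
    rw [hy, map_add, map_nsmul, AddEquiv.apply_symm_apply]
    congr 1
    rw [map_sum, Fintype.sum_prod_type_right]
    refine Finset.sum_congr rfl fun i _ => ?_
    have h3 : a i = ∑ c : C, MonoidAlgebra.single c ((a i).coeff c) := by
      ext d
      rw [MonoidAlgebra.coeff_sum, Finsupp.finsetSum_apply]
      simp [MonoidAlgebra.coeff_single, Finsupp.single_apply]
    conv_lhs => rw [h3, Finset.sum_smul]
    refine Finset.sum_congr rfl fun c _ => ?_
    have h4 := ResF.single_smul C.subtype P c ((a i).coeff c) ((ResF.of C.subtype P).symm (b i))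
    rw [AddEquiv.apply_symm_apply] at h4
    rw [h4, homB_single]
    rfl
  have hcard : Module.finrank ℤ P = Fintype.card (C × Fin ρ) := by
    rw [Fintype.card_prod, Fintype.card_fin, mul_comm, ← Nat.card_eq_fintype_card]
    exact hρ.symm
  refine ⟨ρ, fun i => (ResF.of C.subtype P).symm (b i), ?_, ?_⟩
  · intro y
    obtain ⟨n, z, hy⟩ := hb' y
    refine ⟨n, z, hy.trans ?_⟩
    congr 1
    exact Finset.sum_congr rfl fun q _ => (homB_single P _ _ _).symm
  · intro n z hn q
    refine homB_indep ℓ hcard _ hb' n z ?_ q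
    rw [← hn]
    exact Finset.sum_congr rfl fun q _ => (homB_single P _ _ _).symm

/-- (`m_j` a basis of `M` over `𝔽_ℓ`, `w (i, j)` the homomorphism with `w(c b_i') = 0` except
`w(b_i) = m_j`; `act c w (i, j)` maps `c b_i` to `c m_j` and all the other `c' b_i'` to `0`.) -/
theorem exists_basis_cyclic (ℓ : ℕ) [Fact ℓ.Prime] {G : Type} [Group G] [Finite G] (P M : Type)
    [AddCommGroup P] [Module (MonoidAlgebra ℤ G) P] [Module.Finite (MonoidAlgebra ℤ G) P]
    [Module.Projective (MonoidAlgebra ℤ G) P]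
    [AddCommGroup M] [Module (MonoidAlgebra ℤ G) M] [Finite M] (hM : ∀ y : M, ℓ • y = 0)
    (g : G) [Fintype (Subgroup.zpowers g)] :
    ∃ (t : ℕ) (w : Fin t → (P →+ M)),
      Function.Bijective (fun n : Subgroup.zpowers g × Fin t → ZMod ℓ =>
        ∑ q, (n q).val • act P M (q.1 : G) (w q.2)) := by
  classical
  obtain ⟨ρ, b, h1, h2⟩ := exists_gen_cyclic ℓ P g
  obtain ⟨C, hC⟩ : ∃ C : Subgroup G, C = Subgroup.zpowers g := ⟨_, rfl⟩
  obtain ⟨e, he⟩ : ∃ e : Subgroup.zpowers g × Fin ρ → P, ∀ q, e q =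
    (MonoidAlgebra.single (q.1 : G) (1 : ℤ) : MonoidAlgebra ℤ G) • b q.2 := ⟨_, fun q => rfl⟩
  have hs : ∀ (n : Subgroup.zpowers g × Fin ρ → ℤ),
      (∑ q, (MonoidAlgebra.single (q.1 : G) (n q) : MonoidAlgebra ℤ G) • b q.2) =
      ∑ q, n q • e q := fun n => Finset.sum_congr rfl fun q _ => by
    rw [he, homB_single]
  simp only [hs] at h1 h2
  obtain ⟨instM⟩ : Nonempty (Module (ZMod ℓ) M) := ⟨AddCommGroup.zmodModule hM⟩
  have hMf : Module.Finite (ZMod ℓ) M := Module.finite_iff_finite.2 inferInstance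
  let m : Module.Basis (Fin (Module.finrank (ZMod ℓ) M)) (ZMod ℓ) M := Module.finBasis (ZMod ℓ) M
  obtain ⟨d, hd⟩ : ∃ d, d = Module.finrank (ZMod ℓ) M := ⟨_, rfl⟩
  have hval : ∀ (a : ZMod ℓ) (y : M), a.val • y = a • y := fun a y => by
    rw [← Nat.cast_smul_eq_nsmul (ZMod ℓ), ZMod.natCast_zmod_val]
  -- the homomorphisms
  have hw : ∀ p : Fin ρ × Fin (Module.finrank (ZMod ℓ) M), ∃ f : P →+ M,
      ∀ q, f (e q) = if q.1 = 1 ∧ q.2 = p.1 then m p.2 else 0 := fun p =>
    homB_ext ℓ hM e h1 h2 _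
  choose w hw using hw
  let E := (Fintype.equivFin (Fin ρ × Fin (Module.finrank (ZMod ℓ) M)))
  refine ⟨Fintype.card (Fin ρ × Fin (Module.finrank (ZMod ℓ) M)), fun s => w (E.symm s), ?_⟩
  -- the values
  have hact : ∀ (c : Subgroup.zpowers g) (p : Fin ρ × Fin (Module.finrank (ZMod ℓ) M))
      (q : Subgroup.zpowers g × Fin ρ), act P M (c : G) (w p) (e q) =
      if q.1 = c ∧ q.2 = p.1 then
        (MonoidAlgebra.single (c : G) (1 : ℤ) : MonoidAlgebra ℤ G) • m p.2 else 0 := by
    intro c p q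
    have h3 : (MonoidAlgebra.single (c : G)⁻¹ (1 : ℤ) : MonoidAlgebra ℤ G) • e q =
        e (c⁻¹ * q.1, q.2) := by
      rw [he, he, ← mul_smul, MonoidAlgebra.single_mul_single, mul_one]
      rfl
    rw [act_apply, h3, hw]
    have h4 : c⁻¹ * q.1 = 1 ↔ q.1 = c := by
      rw [inv_mul_eq_one, eq_comm]
    simp only [h4]
    split_ifs with h5
    · rfl
    · rw [smul_zero]
  have hF : ∀ (n : Subgroup.zpowers g × Fin (Fintype.card (Fin ρ ×
      Fin (Module.finrank (ZMod ℓ) M))) → ZMod ℓ) (q : Subgroup.zpowers g × Fin ρ),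
      (∑ r, (n r).val • act P M (r.1 : G) (w (E.symm r.2))) (e q) =
      (MonoidAlgebra.single (q.1 : G) (1 : ℤ) : MonoidAlgebra ℤ G) •
        ∑ j, n (q.1, E (q.2, j)) • m j := by
    intro n q
    rw [AddMonoidHom.finsetSum_apply, Fintype.sum_prod_type]
    have h5 : ∀ c : Subgroup.zpowers g, ∑ s, ((n (c, s)).val • act P M (c : G)
        (w (E.symm s))) (e q) = if q.1 = c then ∑ j, (n (c, E (q.2, j))).val •
          ((MonoidAlgebra.single (c : G) (1 : ℤ) : MonoidAlgebra ℤ G) • m j) else 0 := by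
      intro c
      rw [← E.sum_comp, Fintype.sum_prod_type]
      have h6 : ∀ i j, ((n (c, E (i, j))).val • act P M (c : G) (w (E.symm (E (i, j)))))
          (e q) = if q.2 = i then (if q.1 = c then (n (c, E (i, j))).val •
          ((MonoidAlgebra.single (c : G) (1 : ℤ) : MonoidAlgebra ℤ G) • m j) else 0) else 0 := by
        intro i j
        rw [AddMonoidHom.nsmul_apply, Equiv.symm_apply_apply, hact]
        by_cases h7 : q.2 = i
        · by_cases h8 : q.1 = c
          · rw [if_pos ⟨h8, h7⟩, if_pos h7, if_pos h8]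
          · rw [if_neg (fun h => h8 h.1), if_pos h7, if_neg h8, smul_zero]
        · rw [if_neg (fun h => h7 h.2), if_neg h7, smul_zero]
      simp only [h6]
      rw [Finset.sum_comm]
      by_cases h8 : q.1 = c
      · simp only [if_pos h8]
        exact Finset.sum_congr rfl fun j _ => by
          rw [Finset.sum_ite_eq Finset.univ q.2 (fun i => (n (c, E (i, j))).val •
            ((MonoidAlgebra.single (c : G) (1 : ℤ) : MonoidAlgebra ℤ G) • m j)),
            if_pos (Finset.mem_univ _)]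
      · simp only [if_neg h8, ite_self, Finset.sum_const_zero]
    rw [Finset.sum_congr rfl fun c _ => h5 c, Finset.sum_ite_eq Finset.univ q.1,
      if_pos (Finset.mem_univ _), Finset.smul_sum]
    refine Finset.sum_congr rfl fun j _ => ?_
    rw [← hval, smul_comm]
  have hinvG : ∀ (c : G) (y : M), (MonoidAlgebra.single c⁻¹ (1 : ℤ) : MonoidAlgebra ℤ G) •
      ((MonoidAlgebra.single c (1 : ℤ) : MonoidAlgebra ℤ G) • y) = y := by
    intro c y
    rw [← mul_smul, MonoidAlgebra.single_mul_single, mul_one, inv_mul_cancel]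
    exact one_smul _ y
  have hinvG' : ∀ (c : G) (y : M), (MonoidAlgebra.single c (1 : ℤ) : MonoidAlgebra ℤ G) •
      ((MonoidAlgebra.single c⁻¹ (1 : ℤ) : MonoidAlgebra ℤ G) • y) = y := by
    intro c y
    rw [← mul_smul, MonoidAlgebra.single_mul_single, mul_one, mul_inv_cancel]
    exact one_smul _ y
  constructor
  · intro n n' hnn
    have h3 : ∀ q : Subgroup.zpowers g × Fin ρ, (∑ j, n (q.1, E (q.2, j)) • m j) = ∑ j, n' (q.1, E (q.2, j)) • m j := by
      intro q
      have h4 := DFunLike.congr_fun hnn (e q)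
      simp only [hF] at h4
      rw [← hinvG (q.1 : G) (∑ j, n (q.1, E (q.2, j)) • m j), h4, hinvG]
    funext ⟨c, s⟩
    obtain ⟨⟨i, j⟩, rfl⟩ := E.surjective s
    have h5 := congrArg (fun y => m.repr y j) (h3 (c, i))
    simp only [m.repr_sum_self] at h5
    exact h5
  · intro f
    refine ⟨fun r => m.repr ((MonoidAlgebra.single (r.1 : G)⁻¹ (1 : ℤ) : MonoidAlgebra ℤ G) •
      f (e (r.1, (E.symm r.2).1))) (E.symm r.2).2, ?_⟩
    refine homB_uniq ℓ hM e h1 _ _ fun q => ?_
    simp only [hF, Equiv.symm_apply_apply]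
    rw [m.sum_repr, hinvG']

end Pool.Agent.Lib.MP_0e6cae_nt.SW
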