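import Pool.Agent.Lib.MP_0e6cae_nt.SW.HomA
import Pool.Agent.Lib.MP_0e6cae_nt.SW.HomB
import Pool.Agent.Lib.MP_0e6cae_nt.SW.TrF

/-!
The number of `ℤ[G]`-homomorphisms from a projective module to a finite module.
-/

namespace Pool.Agent.Lib.MP_0e6cae_nt.SW

/-- (`P` is free over `ℤ`, because `ℤ[G]` is free over `ℤ`.) -/
theorem card_addHom {G : Type} [Group G] [Finite G] (P M : Type)
    [AddCommGroup P] [Module (MonoidAlgebra ℤ G) P] [Module.Finite (MonoidAlgebra ℤ G) P]
    [Module.Projective (MonoidAlgebra ℤ G) P] [AddCommGroup M] [Finite M] :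
    Nat.card (P →+ M) = Nat.card M ^ Module.finrank ℤ P := by
  classical
  have hPf : Module.Finite ℤ P := Module.Finite.trans (MonoidAlgebra ℤ G) P
  obtain ⟨n, π, hπ⟩ := Module.Finite.exists_fin' (MonoidAlgebra ℤ G) P
  obtain ⟨σ, hσ⟩ := Module.projective_lifting_property π LinearMap.id hπ
  have hinj : Function.Injective σ := fun x y hxy => by
    have h1 := congrArg π hxy
    have h2 : ∀ z, π (σ z) = z := fun z => LinearMap.congr_fun hσ z
    rwa [h2, h2] at h1
  have hfree : Module.Free ℤ P := by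
    have h1 : Function.Injective σ.toAddMonoidHom.toIntLinearMap := hinj
    exact Module.Free.of_equiv (LinearEquiv.ofInjective σ.toAddMonoidHom.toIntLinearMap h1).symm
  let b := Module.finBasis ℤ P
  have e1 : Nat.card (P →+ M) = Nat.card (P →ₗ[ℤ] M) :=
    Nat.card_congr (addMonoidHomLequivInt ℤ).toEquiv
  have e2 : Nat.card (P →ₗ[ℤ] M) = Nat.card (Fin (Module.finrank ℤ P) → M) :=
    Nat.card_congr (b.constr ℤ).toEquiv.symm
  rw [e1, e2, Nat.card_fun, Nat.card_fin]

/-- A homomorphism of groups is linear if and only if it is fixed by the group. -/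
theorem homC_linear {G : Type} [Group G] (P M : Type)
    [AddCommGroup P] [Module (MonoidAlgebra ℤ G) P]
    [AddCommGroup M] [Module (MonoidAlgebra ℤ G) M] (f : P →+ M)
    (hf : ∀ g : G, act P M g f = f) (r : MonoidAlgebra ℤ G) (x : P) : f (r • x) = r • f x := by
  have h1 : ∀ (g : G) (x : P), f ((MonoidAlgebra.single g (1 : ℤ) : MonoidAlgebra ℤ G) • x) =
      (MonoidAlgebra.single g (1 : ℤ) : MonoidAlgebra ℤ G) • f x := by
    intro g x
    conv_lhs => rw [← hf g]
    rw [act_apply, smul_smul, MonoidAlgebra.single_mul_single, inv_mul_cancel, one_mul,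
      ← MonoidAlgebra.one_def, one_smul]
  induction r using MonoidAlgebra.induction_on with
  | of g => exact h1 g x
  | add a b ha hb => rw [add_smul, add_smul, map_add, ha, hb]
  | smul n a ha =>
    rw [zsmul_eq_mul, mul_smul, mul_smul, Int.cast_smul_eq_zsmul, Int.cast_smul_eq_zsmul,
      map_zsmul, ha]

/-- (A homomorphism `P → M` of groups is `ℤ[G]`-linear if and only if it is fixed by `G`;
`exists_idem`, `exists_basis_cyclic`, `card_fixed`, `card_addHom`.) -/
theorem card_hom (ℓ : ℕ) [Fact ℓ.Prime] {G : Type} [Group G] [Finite G] (P M : Type)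
    [AddCommGroup P] [Module (MonoidAlgebra ℤ G) P] [Module.Finite (MonoidAlgebra ℤ G) P]
    [Module.Projective (MonoidAlgebra ℤ G) P]
    [AddCommGroup M] [Module (MonoidAlgebra ℤ G) M] [Finite M] (hM : ∀ y : M, ℓ • y = 0) :
    Nat.card (P →ₗ[MonoidAlgebra ℤ G] M) ^ Nat.card G = Nat.card M ^ Module.finrank ℤ P := by
  classical
  obtain ⟨s, e, Ψ, he, hΨ, heΨ, hsur, hact⟩ := exists_idem (G := G) ℓ P M hM
  have hfree : ∀ g : G, g ≠ 1 → ∃ (t : ℕ) (w : Fin t → (Fin s → MonoidAlgebra (ZMod ℓ) G)),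
      (∀ j, e (w j) = w j) ∧
      (LinearIndependent (ZMod ℓ) fun q : Subgroup.zpowers g × Fin t =>
        (MonoidAlgebra.single (q.1 : G) (1 : ZMod ℓ) : MonoidAlgebra (ZMod ℓ) G) • w q.2) ∧
      ∀ v, e v = v → v ∈ Submodule.span (ZMod ℓ) (Set.range fun q : Subgroup.zpowers g × Fin t =>
        (MonoidAlgebra.single (q.1 : G) (1 : ZMod ℓ) : MonoidAlgebra (ZMod ℓ) G) • w q.2) := by
    intro g _
    have : Fintype (Subgroup.zpowers g) := Fintype.ofFinite _
    obtain ⟨t, w, hw⟩ := exists_basis_cyclic (G := G) ℓ P M hM g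
    have hsum : ∀ n : Subgroup.zpowers g × Fin t → ZMod ℓ,
        Ψ (∑ q, (n q).val • act P M (q.1 : G) (w q.2)) =
        ∑ q, n q • ((MonoidAlgebra.single (q.1 : G) (1 : ZMod ℓ) : MonoidAlgebra (ZMod ℓ) G) •
          Ψ (w q.2)) := by
      intro n
      rw [map_sum]
      refine Finset.sum_congr rfl fun q _ => ?_
      rw [map_nsmul, hact, ← Nat.cast_smul_eq_nsmul (ZMod ℓ), ZMod.natCast_zmod_val]
    refine ⟨t, fun j => Ψ (w j), fun j => heΨ _, ?_, fun v hv => ?_⟩
    · rw [Fintype.linearIndependent_iff]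
      intro n hn q
      have h1 : Ψ (∑ q, (n q).val • act P M (q.1 : G) (w q.2)) = 0 := (hsum n).trans hn
      have h2 : (∑ q, (n q).val • act P M (q.1 : G) (w q.2)) =
          ∑ q : Subgroup.zpowers g × Fin t, ((0 : Subgroup.zpowers g × Fin t → ZMod ℓ) q).val •
            act P M (q.1 : G) (w q.2) := by
        apply hΨ
        rw [h1]
        simp
      exact congrFun (hw.1 h2) q
    · obtain ⟨f, rfl⟩ := hsur v hv
      obtain ⟨n, rfl⟩ := hw.2 f
      show Ψ (∑ q, (n q).val • act P M (q.1 : G) (w q.2)) ∈ _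
      rw [hsum]
      exact Submodule.sum_mem _ fun q _ => Submodule.smul_mem _ _
        (Submodule.subset_span ⟨q, rfl⟩)
  have h1 := card_fixed ℓ e he hfree
  have h2 : Nat.card (P →ₗ[MonoidAlgebra ℤ G] M) =
      Nat.card {v : Fin s → MonoidAlgebra (ZMod ℓ) G // e v = v ∧
      ∀ g : G, (MonoidAlgebra.single g (1 : ZMod ℓ) : MonoidAlgebra (ZMod ℓ) G) • v = v} := by
    refine Nat.card_congr (Equiv.ofBijective (fun φ => ⟨Ψ φ.toAddMonoidHom, heΨ _, fun g => ?_⟩)
      ⟨fun φ φ' h => ?_, fun v => ?_⟩)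
    · rw [← hact]
      congr 1
      ext x
      rw [act_apply]
      show (MonoidAlgebra.single g (1 : ℤ) : MonoidAlgebra ℤ G) • φ _ = φ x
      rw [map_smul, smul_smul, MonoidAlgebra.single_mul_single, mul_inv_cancel, one_mul,
        ← MonoidAlgebra.one_def, one_smul]
    · have h3 := hΨ (Subtype.ext_iff.1 h)
      ext x
      exact DFunLike.congr_fun h3 x
    · obtain ⟨v, hv, hv'⟩ := v
      obtain ⟨f, rfl⟩ := hsur v hv
      have hf : ∀ g, act P M g f = f := fun g => hΨ (by rw [hact, hv' g])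
      exact ⟨{ toFun := f, map_add' := map_add f, map_smul' := homC_linear P M f hf },
        Subtype.ext rfl⟩
  have h3 : Nat.card (P →+ M) = Nat.card {v : Fin s → MonoidAlgebra (ZMod ℓ) G // e v = v} := by
    refine Nat.card_congr (Equiv.ofBijective (fun f => ⟨Ψ f, heΨ f⟩)
      ⟨fun f f' h => hΨ (Subtype.ext_iff.1 h), fun v => ?_⟩)
    obtain ⟨f, hf⟩ := hsur v.1 v.2
    exact ⟨f, Subtype.ext hf⟩
  rw [h2, h1, ← h3, card_addHom (G := G) P M]

end Pool.Agent.Lib.MP_0e6cae_nt.SW
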