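import Mathlib

/-!
The integral group ring of a finite group has no idempotents other than `0` and `1`.
-/

namespace Pool.Agent.Lib.MP_0e6cae_nt.SW

/-- The trace of the multiplication by `e`. -/
theorem trace_mulLeft (G : Type) [Group G] [Fintype G] (e : MonoidAlgebra ℤ G) :
    LinearMap.trace ℤ (MonoidAlgebra ℤ G) (LinearMap.mulLeft ℤ e) =
      (Fintype.card G : ℤ) * e.coeff 1 := by
  classical
  rw [LinearMap.trace_eq_matrix_trace ℤ (MonoidAlgebra.basis G ℤ), Matrix.trace]
  have h1 : ∀ g : G, Matrix.diag (LinearMap.toMatrix (MonoidAlgebra.basis G ℤ)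
      (MonoidAlgebra.basis G ℤ) (LinearMap.mulLeft ℤ e)) g = e.coeff 1 := by
    intro g
    rw [Matrix.diag_apply, LinearMap.toMatrix_apply, MonoidAlgebra.basis_apply,
      LinearMap.mulLeft_apply]
    have h2 : (e * MonoidAlgebra.single g (1 : ℤ)).coeff g = e.coeff 1 * 1 :=
      MonoidAlgebra.coeff_mul_single_eq_coeff_mul 1 (fun m _ => by simp)
    rw [mul_one] at h2
    exact h2
  rw [Finset.sum_congr rfl fun g _ => h1 g, Finset.sum_const, Finset.card_univ, nsmul_eq_mul]

theorem idem_mulLeft {G : Type} [Group G] {e : MonoidAlgebra ℤ G} (he : e * e = e) :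
    IsIdempotentElem (LinearMap.mulLeft ℤ e) := by
  ext x
  simp [← mul_assoc, he]

theorem idem_zero {G : Type} [Group G] [Fintype G] {e : MonoidAlgebra ℤ G} (he : e * e = e)
    (h1 : e.coeff 1 = 0) : e = 0 := by
  have : Module.Finite ℤ (MonoidAlgebra ℤ G) := Module.Finite.of_basis (MonoidAlgebra.basis G ℤ)
  have : Module.Free ℤ (MonoidAlgebra ℤ G) := Module.Free.of_basis (MonoidAlgebra.basis G ℤ)
  have h2 := trace_mulLeft G e
  rw [h1, mul_zero] at h2
  have h3 := LinearMap.IsIdempotentElem.eq_zero_of_trace_eq_zero (idem_mulLeft he) h2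
  have h4 := LinearMap.congr_fun h3 1
  rw [LinearMap.mulLeft_apply, mul_one, LinearMap.zero_apply] at h4
  exact h4

/-- (Trace of the multiplication by `e` on `ℚ[G]`: `|G|` times the coefficient of `e` at `1` is the
rank of `e`, an integer between `0` and `|G|`; so the rank is `0` or `|G|`.) -/
theorem idem_trivial (G : Type) [Group G] [Finite G] (e : MonoidAlgebra ℤ G) (he : e * e = e) :
    e = 0 ∨ e = 1 := by
  have := Fintype.ofFinite G
  have : Module.Finite ℤ (MonoidAlgebra ℤ G) := Module.Finite.of_basis (MonoidAlgebra.basis G ℤ)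
  have : Module.Free ℤ (MonoidAlgebra ℤ G) := Module.Free.of_basis (MonoidAlgebra.basis G ℤ)
  have h2 := trace_mulLeft G e
  rw [(LinearMap.IsIdempotentElem.isProj_range _ (idem_mulLeft he)).trace] at h2
  have h3 : Module.finrank ℤ (LinearMap.range (LinearMap.mulLeft ℤ e)) ≤ Fintype.card G := by
    have h4 := Submodule.finrank_le (LinearMap.range (LinearMap.mulLeft ℤ e))
    rwa [Module.finrank_eq_card_basis (MonoidAlgebra.basis G ℤ)] at h4
  have hpos : (0 : ℤ) < (Fintype.card G : ℤ) := by exact_mod_cast Fintype.card_pos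
  have h5 : 0 ≤ e.coeff 1 := by
    by_contra hneg
    have : (Fintype.card G : ℤ) * e.coeff 1 < 0 := by nlinarith
    omega
  have h6 : e.coeff 1 ≤ 1 := by
    by_contra hgt
    have h7 : (Fintype.card G : ℤ) * 2 ≤ (Fintype.card G : ℤ) * e.coeff 1 :=
      mul_le_mul_of_nonneg_left (by omega) hpos.le
    omega
  rcases (by omega : e.coeff 1 = 0 ∨ e.coeff 1 = 1) with h | h
  · exact Or.inl (idem_zero he h)
  · right
    have h8 : (1 - e) * (1 - e) = 1 - e := by
      rw [mul_sub, mul_one, sub_mul, one_mul, he, sub_self, sub_zero]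
    have h9 : (1 - e).coeff 1 = 0 := by
      rw [MonoidAlgebra.coeff_sub]
      simp [h]
    exact (sub_eq_zero.1 (idem_zero h8 h9)).symm

end Pool.Agent.Lib.MP_0e6cae_nt.SW
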