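import Pool.Agent.Lib.MP_0e6cae_nt.SW.Base

/-!
Sum over the group of the traces of `g ∘ a` for an endomorphism `a` of `R[G]^s`.
-/

namespace Pool.Agent.Lib.MP_0e6cae_nt.SW

theorem trace_augM {R : Type} [CommRing R] {G : Type} [Group G] {s : ℕ}
    (a : (Fin s → MonoidAlgebra R G) →ₗ[MonoidAlgebra R G] (Fin s → MonoidAlgebra R G)) :
    LinearMap.trace R (Fin s → R) (augM a) = ∑ i, aug R G (a (Pi.single i 1) i) := by
  rw [LinearMap.trace_eq_matrix_trace R (Pi.basisFun R (Fin s)), Matrix.trace]
  refine Finset.sum_congr rfl fun i _ => ?_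
  rw [Matrix.diag_apply, LinearMap.toMatrix_apply, Pi.basisFun_apply, Pi.basisFun_repr,
    augM_apply, Finset.sum_eq_single i]
  · rw [Pi.single_eq_same, one_mul]
  · intro j _ hj
    rw [Pi.single_eq_of_ne hj, zero_mul]
  · intro h
    exact absurd (Finset.mem_univ i) h

/-- The coordinates of `R[G]^s` over `R`. -/
private noncomputable def trACoord (R : Type) [CommRing R] (G : Type) [Group G] [Fintype G] (s : ℕ) :
    (Fin s → MonoidAlgebra R G) ≃ₗ[R] (Fin s × G → R) where
  toFun := fun v q => (v q.1).coeff q.2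
  map_add' := fun v w => by
    funext q
    rw [Pi.add_apply, Pi.add_apply, MonoidAlgebra.coeff_add, Finsupp.add_apply]
  map_smul' := fun r v => by
    funext q
    simp
  invFun := fun c i => MonoidAlgebra.ofCoeff (Finsupp.equivFunOnFinite.symm fun h => c (i, h))
  left_inv := fun v => by
    funext i
    ext h
    simp
  right_inv := fun c => by
    funext q
    simp

private theorem coeff_single_one_smul {R : Type} [CommRing R] {G : Type} [Group G] (g h : G)
    (y : MonoidAlgebra R G) : (MonoidAlgebra.single g (1 : R) * y).coeff h = y.coeff (g⁻¹ * h) := by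
  rw [MonoidAlgebra.coeff_single_mul_eq_mul_coeff (g⁻¹ * h), one_mul]
  intro m' _
  exact eq_inv_mul_iff_mul_eq.symm

private theorem aug_eq_sum {R : Type} [CommRing R] {G : Type} [Group G] [Fintype G]
    (y : MonoidAlgebra R G) : aug R G y = ∑ g : G, y.coeff g := by
  induction y using MonoidAlgebra.induction_linear with
  | zero => simp
  | add a b ha hb =>
    rw [map_add, ha, hb, ← Finset.sum_add_distrib]
    refine Finset.sum_congr rfl fun g _ => ?_
    rw [MonoidAlgebra.coeff_add, Finsupp.add_apply]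
  | single g r =>
    classical
    rw [aug_single]
    simp [Finsupp.single_apply]

/-- (In the basis `h e_i`, `h ∈ G`: `g a(h e_i) = g h a(e_i)`; its coefficient at `h e_i` is the
coefficient of `h⁻¹ g⁻¹ h` in the `i`-th coordinate of `a(e_i)`; sum over `g`.) -/
theorem sum_trace {R : Type} [CommRing R] {G : Type} [Group G] [Fintype G] {s : ℕ}
    (a : (Fin s → MonoidAlgebra R G) →ₗ[MonoidAlgebra R G] (Fin s → MonoidAlgebra R G)) :
    ∑ g : G, LinearMap.trace R (Fin s → MonoidAlgebra R G)
      (lm R G s g ∘ₗ a.restrictScalars R) =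
      (Fintype.card G : R) * LinearMap.trace R (Fin s → R) (augM a) := by
  classical
  let b : Module.Basis (Fin s × G) R (Fin s → MonoidAlgebra R G) :=
    Module.Basis.ofEquivFun (trACoord R G s)
  have hb : ∀ q : Fin s × G, b q = Pi.single q.1 (MonoidAlgebra.single q.2 (1 : R)) := by
    intro q
    apply (trACoord R G s).injective
    rw [Module.Basis.coe_ofEquivFun, LinearEquiv.apply_symm_apply]
    funext q'
    change _ = ((Pi.single q.1 (MonoidAlgebra.single q.2 (1 : R)) :
      Fin s → MonoidAlgebra R G) q'.1).coeff q'.2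
    by_cases h1 : q'.1 = q.1
    · rw [h1, Pi.single_eq_same, MonoidAlgebra.coeff_single, Finsupp.single_apply]
      by_cases h2 : q.2 = q'.2
      · have h3 : q' = q := Prod.ext h1 h2.symm
        rw [if_pos h2, h3, Pi.single_eq_same]
      · rw [if_neg h2, Pi.single_eq_of_ne]
        intro h3
        exact h2 (by rw [h3])
    · rw [Pi.single_eq_of_ne h1]
      rw [Pi.single_eq_of_ne]
      · rfl
      · intro h3
        exact h1 (by rw [h3])
  have hrepr : ∀ (v : Fin s → MonoidAlgebra R G) (q : Fin s × G), b.repr v q = (v q.1).coeff q.2 := by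
    intro v q
    rw [Module.Basis.ofEquivFun_repr_apply]
    rfl
  have ha : ∀ q : Fin s × G, a (b q) = (MonoidAlgebra.single q.2 (1 : R) : MonoidAlgebra R G) •
      a (Pi.single q.1 1) := by
    intro q
    rw [← map_smul, hb]
    congr 1
    rw [← Pi.single_smul, smul_eq_mul, mul_one]
  have htr : ∀ g : G, LinearMap.trace R (Fin s → MonoidAlgebra R G)
      (lm R G s g ∘ₗ a.restrictScalars R) =
      ∑ q : Fin s × G, (a (Pi.single q.1 1) q.1).coeff (q.2⁻¹ * (g⁻¹ * q.2)) := by
    intro g
    rw [LinearMap.trace_eq_matrix_trace R b, Matrix.trace]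
    refine Finset.sum_congr rfl fun q _ => ?_
    rw [Matrix.diag_apply, LinearMap.toMatrix_apply, hrepr, LinearMap.comp_apply,
      LinearMap.restrictScalars_apply, lm_apply, ha, Pi.smul_apply, Pi.smul_apply, smul_eq_mul,
      smul_eq_mul, coeff_single_one_smul, coeff_single_one_smul]
  rw [Finset.sum_congr rfl fun g _ => htr g, Finset.sum_comm, trace_augM, Fintype.sum_prod_type,
    Finset.mul_sum]
  refine Finset.sum_congr rfl fun i _ => ?_
  have h1 : ∀ h : G, ∑ g : G, (a (Pi.single i 1) i).coeff (h⁻¹ * (g⁻¹ * h)) =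
      aug R G (a (Pi.single i 1) i) := by
    intro h
    rw [aug_eq_sum]
    let σ : G ≃ G := (Equiv.inv G).trans ((Equiv.mulRight h).trans (Equiv.mulLeft h⁻¹))
    exact Fintype.sum_equiv σ _ _ fun g => rfl
  rw [Finset.sum_congr rfl fun h _ => h1 h, Finset.sum_const, Finset.card_univ, nsmul_eq_mul]

end Pool.Agent.Lib.MP_0e6cae_nt.SW
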