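import Pool.Agent.Lib.MP_0e6cae_nt.SW.Base

/-!
Lifting of idempotents from `𝔽_ℓ[G]` to `(ℤ/ℓ^k)[G]`.
-/

namespace Pool.Agent.Lib.MP_0e6cae_nt.SW

/-- The reduction `ℤ/ℓ^k → ℤ/ℓ`. -/
def cst (ℓ k : ℕ) (hk : k ≠ 0) : ZMod (ℓ ^ k) →+* ZMod ℓ :=
  ZMod.castHom (dvd_pow_self ℓ hk) (ZMod ℓ)

private theorem trB_surj (ℓ k : ℕ) (hk : k ≠ 0) (G : Type) [Group G] :
    Function.Surjective (MonoidAlgebra.mapRingHom G (cst ℓ k hk)) := by
  intro y
  induction y using MonoidAlgebra.induction_linear with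
  | zero => exact ⟨0, map_zero _⟩
  | add a b ha hb =>
    obtain ⟨a', rfl⟩ := ha
    obtain ⟨b', rfl⟩ := hb
    exact ⟨a' + b', map_add _ _ _⟩
  | single g r =>
    obtain ⟨r', rfl⟩ := ZMod.ringHom_surjective (cst ℓ k hk) r
    exact ⟨MonoidAlgebra.single g r', by simp⟩

private theorem trB_div (ℓ k : ℕ) [Fact ℓ.Prime] (hk : k ≠ 0) (c : ZMod (ℓ ^ k))
    (hc : cst ℓ k hk c = 0) : c = ℓ • ((c.val / ℓ : ℕ) : ZMod (ℓ ^ k)) := by
  have hne : NeZero (ℓ ^ k) := ⟨pow_ne_zero k (Fact.out : ℓ.Prime).ne_zero⟩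
  have h1 : ((c.val : ℕ) : ZMod ℓ) = 0 := by
    have h2 : cst ℓ k hk ((c.val : ℕ) : ZMod (ℓ ^ k)) = ((c.val : ℕ) : ZMod ℓ) := map_natCast _ _
    rw [← h2, ZMod.natCast_zmod_val, hc]
  have h3 : ℓ ∣ c.val := (ZMod.natCast_eq_zero_iff _ _).1 h1
  rw [nsmul_eq_mul, ← Nat.cast_mul, Nat.mul_div_cancel' h3, ZMod.natCast_zmod_val]

private theorem trB_ker (ℓ k : ℕ) [Fact ℓ.Prime] (hk : k ≠ 0) (G : Type) [Group G]
    (y : MonoidAlgebra (ZMod (ℓ ^ k)) G) (hy : MonoidAlgebra.mapRingHom G (cst ℓ k hk) y = 0) :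
    ∃ y', y = ℓ • y' := by
  refine ⟨MonoidAlgebra.ofCoeff (Finsupp.mapRange (fun c : ZMod (ℓ ^ k) =>
    ((c.val / ℓ : ℕ) : ZMod (ℓ ^ k))) (by simp) y.coeff), ?_⟩
  ext g
  have h1 : cst ℓ k hk (y.coeff g) = 0 := by
    rw [← MonoidAlgebra.coeff_mapRingHom, hy]
    rfl
  rw [MonoidAlgebra.coeff_smul, Finsupp.smul_apply]
  exact trB_div ℓ k hk _ h1

/-- (`exists_isIdempotentElem_eq_of_ker_isNilpotent` for the endomorphism rings, or matrices.) -/
theorem exists_lift_idem (ℓ : ℕ) [Fact ℓ.Prime] (k : ℕ) (hk : k ≠ 0) {G : Type} [Group G] [Finite G]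
    {s : ℕ} (e : (Fin s → MonoidAlgebra (ZMod ℓ) G) →ₗ[MonoidAlgebra (ZMod ℓ) G]
      (Fin s → MonoidAlgebra (ZMod ℓ) G)) (he : e ∘ₗ e = e) :
    ∃ e' : (Fin s → MonoidAlgebra (ZMod (ℓ ^ k)) G) →ₗ[MonoidAlgebra (ZMod (ℓ ^ k)) G]
      (Fin s → MonoidAlgebra (ZMod (ℓ ^ k)) G), e' ∘ₗ e' = e' ∧
      ∀ v, red (cst ℓ k hk) G s (e' v) = e (red (cst ℓ k hk) G s v) := by
  classical
  let A := MonoidAlgebra (ZMod ℓ) G
  let A' := MonoidAlgebra (ZMod (ℓ ^ k)) G
  let q : A' →+* A := MonoidAlgebra.mapRingHom G (cst ℓ k hk)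
  let f : Matrix (Fin s) (Fin s) A' →+* Matrix (Fin s) (Fin s) A := q.mapMatrix
  let M : Matrix (Fin s) (Fin s) A := Matrix.of fun i j => e (fun l => if i = l then 1 else 0) j
  have hM : ∀ v : Fin s → A, e v = Matrix.vecMul v M := by
    intro v
    rw [LinearMap.pi_apply_eq_sum_univ e v]
    funext j
    rw [Finset.sum_apply]
    rfl
  have hMM : IsIdempotentElem M := by
    have h1 : ∀ v : Fin s → A, Matrix.vecMul v (M * M) = Matrix.vecMul v M := by
      intro v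
      rw [← Matrix.vecMul_vecMul, ← hM, ← hM]
      exact LinearMap.congr_fun he v
    have h2 : M * M = M := by
      refine Matrix.ext fun i j => ?_
      have h3 := congrFun (h1 (Pi.single i 1)) j
      rw [Matrix.single_one_vecMul, Matrix.single_one_vecMul] at h3
      exact h3
    exact h2
  have hker : ∀ N ∈ RingHom.ker f, IsNilpotent N := by
    intro N hN
    have h1 : ∀ i j, ∃ y', N i j = ℓ • y' := by
      intro i j
      apply trB_ker ℓ k hk G
      have h2 : f N i j = 0 := by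
        rw [RingHom.mem_ker.1 hN]
        rfl
      exact h2
    choose N' hN' using h1
    have h2 : N = ℓ • (Matrix.of N' : Matrix (Fin s) (Fin s) A') := by
      refine Matrix.ext fun i j => ?_
      exact hN' i j
    refine ⟨k, ?_⟩
    rw [h2, smul_pow]
    have h3 : ∀ y : A', (ℓ ^ k) • y = 0 := by
      intro y
      ext g
      rw [MonoidAlgebra.coeff_smul, Finsupp.smul_apply, nsmul_eq_mul, ZMod.natCast_self, zero_mul]
      rfl
    refine Matrix.ext fun i j => ?_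
    exact h3 _
  have hsurj : M ∈ f.range := by
    choose M' hM' using fun i j => trB_surj ℓ k hk G (M i j)
    refine ⟨Matrix.of M', ?_⟩
    refine Matrix.ext fun i j => ?_
    exact hM' i j
  obtain ⟨M', hM'1, hM'2⟩ := exists_isIdempotentElem_eq_of_ker_isNilpotent f hker M hsurj hMM
  refine ⟨Matrix.vecMulLinear M', ?_, ?_⟩
  · apply LinearMap.ext
    intro v
    rw [LinearMap.comp_apply, Matrix.vecMulLinear_apply, Matrix.vecMulLinear_apply,
      Matrix.vecMul_vecMul, hM'1.eq]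
  · intro v
    rw [hM, ← hM'2]
    funext j
    rw [red_apply, Matrix.vecMulLinear_apply]
    exact RingHom.map_vecMul q M' v j

/-- The map `red` is surjective with kernel the multiples of `ℓ`. -/
theorem red_surjective (ℓ k : ℕ) (hk : k ≠ 0) (G : Type) [Group G] (s : ℕ) :
    Function.Surjective (red (cst ℓ k hk) G s) := by
  intro v
  choose v' hv' using fun i => trB_surj ℓ k hk G (v i)
  exact ⟨v', funext hv'⟩

theorem red_eq_zero (ℓ k : ℕ) [Fact ℓ.Prime] (hk : k ≠ 0) (G : Type) [Group G] (s : ℕ)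
    (v : Fin s → MonoidAlgebra (ZMod (ℓ ^ k)) G) (hv : red (cst ℓ k hk) G s v = 0) :
    ∃ v', v = ℓ • v' := by
  choose v' hv' using fun i => trB_ker ℓ k hk G (v i) (congrFun hv i)
  exact ⟨v', funext hv'⟩

end Pool.Agent.Lib.MP_0e6cae_nt.SW
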